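import Pool.Agent.H38.AE.Targets

/-! Targets of the modules for the exceptional set of the strong `n`-conjecture, `n ≥ 4`. -/

set_option autoImplicit false

namespace Pool.Agent.H38.AE

/-- Admissible `n`-tuples of height at most `H`. -/
def Adm (n H : ℕ) : Set (Fin n → ℤ) :=
  {x | (∀ i, x i ≠ 0) ∧ (∀ i j, i ≠ j → IsCoprime (x i) (x j)) ∧ ∑ i, x i = 0 ∧
    ∀ i, |x i| ≤ (H : ℤ)}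

/-- Tuples with `n - 1` radicals of small product. -/
def NT (n H : ℕ) (Z : ℝ) : Set (Fin n → ℤ) :=
  {x | x ∈ Adm n H ∧ ∃ k : Fin n, ∏ l ∈ Finset.univ.filter (fun l => l ≠ k), RR (x l) ≤ Z}

/-- Tuples with a good divisor `q` of the entry `k`. -/
def NE (n H : ℕ) (Z : ℝ) : Set (Fin n → ℤ) :=
  {x | x ∈ Adm n H ∧ ∃ (i j k : Fin n) (q : ℕ), i ≠ j ∧ i ≠ k ∧ j ≠ k ∧ 1 ≤ q ∧ (q : ℤ) ∣ x k ∧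
    (rad q : ℝ) * (∏ l ∈ Finset.univ.filter (fun l => l ≠ i ∧ l ≠ j ∧ l ≠ k), RR (x l)) *
      Real.sqrt (wt q (RR (x i)) * wt q (RR (x j))) ≤ Z}

/-- Tuples with two entries that are nearly powers. -/
def NJ (n H : ℕ) (Z κ : ℝ) (D K : ℕ) : Set (Fin n → ℤ) :=
  {x | x ∈ Adm n H ∧ ∃ (i j : Fin n) (a b : ℤ) (p r e f : ℕ), i ≠ j ∧ 1 ≤ p ∧ 1 ≤ r ∧
    D < e ∧ e ≤ K ∧ D < f ∧ f ≤ K ∧ x i = a * (p : ℤ) ^ e ∧ x j = b * (r : ℤ) ^ f ∧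
    RR a * RR b * (∏ l ∈ Finset.univ.filter (fun l => l ≠ i ∧ l ≠ j), RR (x l)) *
      ((p : ℝ) * r) ^ κ ≤ Z}

/-- N1: the trivial bound. -/
def T_N1 : Prop := ∀ (n : ℕ) (ε : ℝ), 0 < ε → ∃ C : ℝ, 0 < C ∧ ∀ (H : ℕ) (Z : ℝ), 1 ≤ H → 0 ≤ Z →
  ((NT n H Z).ncard : ℝ) ≤ C * (H : ℝ) ^ ε * Z

/-- N2: the energy bound. -/
def T_N2 : Prop := ∀ (n : ℕ) (ε : ℝ), 0 < ε → ∃ C : ℝ, 0 < C ∧ ∀ (H : ℕ) (Z : ℝ), 1 ≤ H → 0 ≤ Z →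
  ((NE n H Z).ncard : ℝ) ≤ C * (H : ℝ) ^ ε * Z

/-- N3: the curve bound. -/
def T_N3 : Prop := ∀ (n D K : ℕ) (κ ε : ℝ), 0 ≤ κ → 0 < ε → T_HD D κ →
  ∃ C : ℝ, 0 < C ∧ ∀ (H : ℕ) (Z : ℝ), 1 ≤ H → 0 ≤ Z →
  ((NJ n H Z κ D K).ncard : ℝ) ≤ C * (H : ℝ) ^ ε * Z

/-- N4: covering of the exceptional tuples. -/
def T_N4 : Prop := ∀ (n D : ℕ) (lam m κ : ℝ), 4 ≤ n → 0 < lam → lam ≤ 1 → 0 < κ → κ < 1 → 0 < m →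
  m * ((n : ℝ) - 2 + 1 / (1 - κ)) ≤ 1 → (n : ℝ) * m * lam ≤ lam + 1 / 8 →
  (D : ℝ) * (m * lam) < 3 / 4 →
  ∃ (C : ℝ) (K : ℕ), 0 < C ∧ ∀ (H : ℕ) (x : Fin n → ℤ), 1 ≤ H → x ∈ Adm n H →
    (∃ i, (H : ℤ) < 2 * |x i|) → ∏ i, RR (x i) ≤ (H : ℝ) ^ lam →
    x ∈ NT n H (C * (H : ℝ) ^ ((1 - m) * lam)) ∪ NE n H (C * (H : ℝ) ^ ((1 - m) * lam)) ∪
      NJ n H (C * (H : ℝ) ^ ((1 - m) * lam)) κ D K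

/-- The exceptional `n`-tuples of height at most `N` for the exponent `M`. -/
def ExcN (n : ℕ) (M : ℝ) (N : ℕ) : Set (Fin n → ℤ) :=
  {x | x ∈ Adm n N ∧ ∃ i, (rad (∏ i, x i).natAbs : ℝ) ^ M < |(x i : ℝ)|}

/-- N5: the count, for given parameters. -/
def T_N5 : Prop := ∀ (n D : ℕ) (M m κ : ℝ), 4 ≤ n → 1 ≤ M → 0 < κ → κ < 1 → 0 < m →
  m * ((n : ℝ) - 2 + 1 / (1 - κ)) ≤ 1 → (n : ℝ) * m * (1 / M) ≤ 1 / M + 1 / 8 →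
  (D : ℝ) * (m * (1 / M)) < 3 / 4 → T_HD D κ →
  ∀ ε : ℝ, 0 < ε → ∃ C : ℝ, 0 < C ∧ ∀ N : ℕ, 1 ≤ N →
    ((ExcN n M N).ncard : ℝ) ≤ C * (N : ℝ) ^ ((1 - m) / M + ε)

/-- N6: `n ≥ 4`. -/
def T_N6 : Prop := ∀ (n : ℕ) (M ε : ℝ), 4 ≤ n → 1 ≤ M → 0 < ε → ∃ C : ℝ, 0 < C ∧ ∀ N : ℕ, 1 ≤ N →
  ((ExcN n M N).ncard : ℝ) ≤
    C * (N : ℝ) ^ ((1 - min
      ((3 * (⌊3 * ((n : ℝ) - 1) * M / 4⌋₊ : ℝ) + 5) /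
        (((n : ℝ) - 1) * (3 * (⌊3 * ((n : ℝ) - 1) * M / 4⌋₊ : ℝ) + 5) + 4))
      ((8 + M) / (8 * n))) / M + ε)

/-- N7: `n = 3`, in terms of tuples. -/
def T_N7 : Prop := ∀ (M ε : ℝ), 1 ≤ M → 0 < ε → ∃ C : ℝ, 0 < C ∧ ∀ N : ℕ, 1 ≤ N →
  ((ExcN 3 M N).ncard : ℝ) ≤
    C * (N : ℝ) ^ ((12 * (⌊3 * M / 2⌋₊ : ℝ) + 28) / ((21 * (⌊3 * M / 2⌋₊ : ℝ) + 43) * M) + ε)

end Pool.Agent.H38.AE
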