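import Pool.Agent.H38.AE.Targets

/-! Basic facts on the radical. -/

set_option autoImplicit false

namespace Pool.Agent.H38.AE

lemma rad_pos (n : ℕ) : 0 < rad n :=
  Finset.prod_pos fun _ hp => (Nat.prime_of_mem_primeFactors hp).pos

lemma one_le_rad (n : ℕ) : 1 ≤ rad n := rad_pos n

lemma one_le_rad_real (n : ℕ) : (1 : ℝ) ≤ (rad n : ℝ) := by exact_mod_cast one_le_rad n

lemma rad_one : rad 1 = 1 := by simp [rad]

lemma rad_dvd (n : ℕ) : rad n ∣ n := Nat.prod_primeFactors_dvd n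

lemma rad_le {n : ℕ} (hn : 1 ≤ n) : rad n ≤ n := Nat.le_of_dvd hn (rad_dvd n)

lemma rad_mul {m n : ℕ} (h : Nat.Coprime m n) : rad (m * n) = rad m * rad n := by
  unfold rad
  rw [h.primeFactors_mul, Finset.prod_union h.disjoint_primeFactors]

lemma rad_prime_pow {p e : ℕ} (hp : p.Prime) (he : e ≠ 0) : rad (p ^ e) = p := by
  unfold rad
  rw [Nat.primeFactors_prime_pow he hp, Finset.prod_singleton]

lemma rad_le_of_dvd {m n : ℕ} (hn : n ≠ 0) (h : m ∣ n) : rad m ≤ rad n := by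
  unfold rad
  exact Finset.prod_le_prod_of_subset_of_one_le' (Nat.primeFactors_mono h hn)
    (fun p hp _ => (Nat.prime_of_mem_primeFactors hp).pos)

lemma one_le_RR (x : ℤ) : (1 : ℝ) ≤ RR x := one_le_rad_real _

lemma RR_pos (x : ℤ) : (0 : ℝ) < RR x := lt_of_lt_of_le one_pos (one_le_RR x)

lemma RR_neg (x : ℤ) : RR (-x) = RR x := by unfold RR; rw [Int.natAbs_neg]

lemma RR_le_abs {x : ℤ} (hx : x ≠ 0) : RR x ≤ |(x : ℝ)| := by
  unfold RR
  have h := rad_le (Int.natAbs_pos.mpr hx)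
  calc (rad x.natAbs : ℝ) ≤ (x.natAbs : ℝ) := by exact_mod_cast h
    _ = |(x : ℝ)| := by rw [← Int.cast_abs, ← Int.natCast_natAbs, Int.cast_natCast]

lemma wt_pos (q : ℕ) {R : ℝ} (hR : 0 < R) : 0 < wt q R := by
  unfold wt; positivity

lemma le_wt (q : ℕ) (R : ℝ) : R ≤ wt q R := by
  unfold wt
  have : 0 ≤ R ^ 2 / Real.sqrt q := by positivity
  linarith

lemma wt_mono (q : ℕ) {R S : ℝ} (hR : 0 ≤ R) (h : R ≤ S) : wt q R ≤ wt q S := by
  unfold wt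
  gcongr

/-- Membership in `Tri` is symmetric. -/
lemma Tri_swap12 {H : ℕ} {x y z : ℤ} (h : (x, y, z) ∈ Tri H) : (y, x, z) ∈ Tri H := by
  obtain ⟨h1, h2, h3, h4, h5, h6, h7, h8, h9, h10⟩ := h
  refine ⟨h2, h1, h3, h4.symm, h6, h5, ?_, h9, h8, h10⟩
  simp only at h7 ⊢
  linarith

lemma Tri_swap23 {H : ℕ} {x y z : ℤ} (h : (x, y, z) ∈ Tri H) : (x, z, y) ∈ Tri H := by
  obtain ⟨h1, h2, h3, h4, h5, h6, h7, h8, h9, h10⟩ := h
  refine ⟨h1, h3, h2, h5, h4, h6.symm, ?_, h8, h10, h9⟩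
  simp only at h7 ⊢
  linarith

end Pool.Agent.H38.AE
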