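import Pool.Agent.H38.AE.Targets
import Pool.Agent.H38.AE.Rad

/-! The covering of the exceptional triples. -/

set_option autoImplicit false

namespace Pool.Agent.H38.AE

/-- `x, y, z` in some order. -/
def IsP (t : ℤ × ℤ × ℤ) (x y z : ℤ) : Prop :=
  t = (x, y, z) ∨ t = (x, z, y) ∨ t = (y, x, z) ∨ t = (y, z, x) ∨ t = (z, x, y) ∨ t = (z, y, x)

/-- Some permutation lies in the set. -/
def Good (S : Set (ℤ × ℤ × ℤ)) (t : ℤ × ℤ × ℤ) : Prop :=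
  ∃ x y z : ℤ, (x, y, z) ∈ S ∧ IsP t x y z

lemma Good.of_mem {S : Set (ℤ × ℤ × ℤ)} {x y z : ℤ} (h : (x, y, z) ∈ S) : Good S (x, y, z) :=
  ⟨x, y, z, h, Or.inl rfl⟩

lemma Good.swap12 {S : Set (ℤ × ℤ × ℤ)} {x y z : ℤ} (h : Good S (x, y, z)) :
    Good S (y, x, z) := by
  obtain ⟨a, b, c, hm, hp⟩ := h
  refine ⟨a, b, c, hm, ?_⟩
  unfold IsP at hp ⊢
  simp only [Prod.mk.injEq] at hp ⊢
  tauto

lemma Good.swap23 {S : Set (ℤ × ℤ × ℤ)} {x y z : ℤ} (h : Good S (x, y, z)) :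
    Good S (x, z, y) := by
  obtain ⟨a, b, c, hm, hp⟩ := h
  refine ⟨a, b, c, hm, ?_⟩
  unfold IsP at hp ⊢
  simp only [Prod.mk.injEq] at hp ⊢
  tauto

/-- One factor of the cost in the split case. -/
lemma split_factor {H R lam θ s₁ s₂ : ℝ} (hH : 1 ≤ H) (hR : 0 < R)
    (hRle : R ≤ H ^ ((1 - θ) * lam)) (hs1 : 0 < s₁) (hs2 : 0 < s₂)
    (h1 : H ≤ 4 * s₁ ^ 8) (h2 : H ≤ 4 * s₂ ^ 8) (h12 : H ≤ 4 * (s₁ * s₂) ^ 2)
    (hl : 0 < lam) (hl1 : lam ≤ 1) (hθ : 4 / 7 < θ) (hc : (2 - 3 * θ) * lam ≤ 1 / 8) :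
    (R + R ^ 2 / s₁) * (R + R ^ 2 / s₂) ≤ 7 * R ^ 2 * H ^ ((2 * θ - 1) * lam) := by
  have hH0 : 0 < H := lt_of_lt_of_le one_pos hH
  set P := H ^ ((2 * θ - 1) * lam) with hP
  have hP1 : 1 ≤ P := Real.one_le_rpow hH (by nlinarith)
  have key8 : ∀ s : ℝ, 0 < s → H ≤ 4 * s ^ 8 → H ^ ((1 : ℝ) / 8) ≤ 2 * s := by
    intro s hs h
    have : H ≤ (2 * s) ^ (8 : ℕ) := by nlinarith [pow_pos hs 8]
    calc H ^ ((1 : ℝ) / 8) ≤ ((2 * s) ^ (8 : ℕ)) ^ ((1 : ℝ) / 8) :=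
          Real.rpow_le_rpow hH0.le this (by norm_num)
      _ = 2 * s := by
          rw [← Real.rpow_natCast, ← Real.rpow_mul (by positivity)]
          norm_num
  have key2 : H ^ ((1 : ℝ) / 2) ≤ 2 * (s₁ * s₂) := by
    have : H ≤ (2 * (s₁ * s₂)) ^ (2 : ℕ) := by nlinarith
    calc H ^ ((1 : ℝ) / 2) ≤ ((2 * (s₁ * s₂)) ^ (2 : ℕ)) ^ ((1 : ℝ) / 2) :=
          Real.rpow_le_rpow hH0.le this (by norm_num)
      _ = 2 * (s₁ * s₂) := by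
          rw [← Real.rpow_natCast, ← Real.rpow_mul (by positivity)]
          norm_num
  have hA : ∀ s : ℝ, 0 < s → H ≤ 4 * s ^ 8 → R / s ≤ 2 * P := by
    intro s hs h
    rw [div_le_iff₀ hs]
    calc R ≤ H ^ ((1 - θ) * lam) := hRle
      _ ≤ H ^ ((2 * θ - 1) * lam + 1 / 8) :=
          Real.rpow_le_rpow_of_exponent_le hH (by nlinarith)
      _ = P * H ^ ((1 : ℝ) / 8) := by rw [Real.rpow_add hH0, hP]
      _ ≤ P * (2 * s) := by gcongr; exact key8 s hs h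
      _ = 2 * P * s := by ring
  have hB : R ^ 2 / (s₁ * s₂) ≤ 2 * P := by
    rw [div_le_iff₀ (by positivity)]
    calc R ^ 2 ≤ (H ^ ((1 - θ) * lam)) ^ 2 := by gcongr
      _ = H ^ ((1 - θ) * lam * 2) := by
          rw [← Real.rpow_natCast, ← Real.rpow_mul hH0.le]; norm_num
      _ ≤ H ^ ((2 * θ - 1) * lam + 1 / 2) :=
          Real.rpow_le_rpow_of_exponent_le hH (by nlinarith)
      _ = P * H ^ ((1 : ℝ) / 2) := by rw [Real.rpow_add hH0, hP]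
      _ ≤ P * (2 * (s₁ * s₂)) := by gcongr
      _ = 2 * P * (s₁ * s₂) := by ring
  have e : (R + R ^ 2 / s₁) * (R + R ^ 2 / s₂) =
      R ^ 2 * (1 + R / s₁ + R / s₂ + R ^ 2 / (s₁ * s₂)) := by
    field_simp
    ring
  rw [e]
  have h3 := hA s₁ hs1 h1
  have h4 := hA s₂ hs2 h2
  have : 1 + R / s₁ + R / s₂ + R ^ 2 / (s₁ * s₂) ≤ 7 * P := by linarith
  calc R ^ 2 * (1 + R / s₁ + R / s₂ + R ^ 2 / (s₁ * s₂)) ≤ R ^ 2 * (7 * P) := by gcongr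
    _ = 7 * R ^ 2 * P := by ring

/-- The split case. -/
lemma split_case {H lam θ Ri Rj r₁ r₂ : ℝ} {q₁ q₂ : ℕ} (hH : 1 ≤ H)
    (hRi : 0 < Ri) (hRj : 0 < Rj) (hr1 : 0 < r₁) (hr2 : 0 < r₂)
    (hRi' : Ri ≤ H ^ ((1 - θ) * lam)) (hRj' : Rj ≤ H ^ ((1 - θ) * lam))
    (hprod : Ri * Rj * (r₁ * r₂) ≤ H ^ lam)
    (hq1 : 1 ≤ q₁) (hq2 : 1 ≤ q₂)
    (h1 : H ≤ 4 * (q₁ : ℝ) ^ 4) (h2 : H ≤ 4 * (q₂ : ℝ) ^ 4) (h12 : H ≤ 4 * ((q₁ : ℝ) * q₂))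
    (hl : 0 < lam) (hl1 : lam ≤ 1) (hθ : 4 / 7 < θ) (hc : (2 - 3 * θ) * lam ≤ 1 / 8) :
    r₁ * Real.sqrt (wt q₁ Ri * wt q₁ Rj) ≤ 3 * H ^ (θ * lam) ∨
    r₂ * Real.sqrt (wt q₂ Ri * wt q₂ Rj) ≤ 3 * H ^ (θ * lam) := by
  have hH0 : 0 < H := lt_of_lt_of_le one_pos hH
  have hq1' : (0 : ℝ) < q₁ := by exact_mod_cast hq1
  have hq2' : (0 : ℝ) < q₂ := by exact_mod_cast hq2
  have hs1 : 0 < Real.sqrt q₁ := Real.sqrt_pos.mpr hq1'
  have hs2 : 0 < Real.sqrt q₂ := Real.sqrt_pos.mpr hq2'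
  have e8 : ∀ q : ℝ, 0 < q → Real.sqrt q ^ 8 = q ^ 4 := by
    intro q hq
    rw [show (8 : ℕ) = 2 * 4 by norm_num, pow_mul, Real.sq_sqrt hq.le]
  have e12 : (Real.sqrt q₁ * Real.sqrt q₂) ^ 2 = (q₁ : ℝ) * q₂ := by
    rw [mul_pow, Real.sq_sqrt hq1'.le, Real.sq_sqrt hq2'.le]
  have fi := split_factor hH hRi hRi' hs1 hs2 (by rw [e8 _ hq1']; exact h1)
    (by rw [e8 _ hq2']; exact h2) (by rw [e12]; exact h12) hl hl1 hθ hc
  have fj := split_factor hH hRj hRj' hs1 hs2 (by rw [e8 _ hq1']; exact h1)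
    (by rw [e8 _ hq2']; exact h2) (by rw [e12]; exact h12) hl hl1 hθ hc
  set P := H ^ ((2 * θ - 1) * lam) with hP
  have hPpos : 0 < P := Real.rpow_pos_of_pos hH0 _
  by_contra hcon
  push Not at hcon
  obtain ⟨c1, c2⟩ := hcon
  set Z := H ^ (θ * lam) with hZ
  have hZpos : 0 < Z := Real.rpow_pos_of_pos hH0 _
  have w1 : 0 < wt q₁ Ri * wt q₁ Rj := mul_pos (wt_pos _ hRi) (wt_pos _ hRj)
  have w2 : 0 < wt q₂ Ri * wt q₂ Rj := mul_pos (wt_pos _ hRi) (wt_pos _ hRj)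
  have d1 : (3 * Z) ^ 2 < r₁ ^ 2 * (wt q₁ Ri * wt q₁ Rj) := by
    have := pow_lt_pow_left₀ c1 (by positivity) two_ne_zero
    rwa [mul_pow r₁, Real.sq_sqrt w1.le] at this
  have d2 : (3 * Z) ^ 2 < r₂ ^ 2 * (wt q₂ Ri * wt q₂ Rj) := by
    have := pow_lt_pow_left₀ c2 (by positivity) two_ne_zero
    rwa [mul_pow r₂, Real.sq_sqrt w2.le] at this
  have d3 : (3 * Z) ^ 2 * (3 * Z) ^ 2 <
      (r₁ ^ 2 * (wt q₁ Ri * wt q₁ Rj)) * (r₂ ^ 2 * (wt q₂ Ri * wt q₂ Rj)) :=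
    mul_lt_mul'' d1 d2 (by positivity) (by positivity)
  have d4 : (r₁ ^ 2 * (wt q₁ Ri * wt q₁ Rj)) * (r₂ ^ 2 * (wt q₂ Ri * wt q₂ Rj)) =
      (r₁ * r₂) ^ 2 * ((Ri + Ri ^ 2 / Real.sqrt q₁) * (Ri + Ri ^ 2 / Real.sqrt q₂)) *
        ((Rj + Rj ^ 2 / Real.sqrt q₁) * (Rj + Rj ^ 2 / Real.sqrt q₂)) := by
    unfold wt; ring
  have d5 : (r₁ * r₂) ^ 2 * ((Ri + Ri ^ 2 / Real.sqrt q₁) * (Ri + Ri ^ 2 / Real.sqrt q₂)) *
        ((Rj + Rj ^ 2 / Real.sqrt q₁) * (Rj + Rj ^ 2 / Real.sqrt q₂)) ≤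
      (r₁ * r₂) ^ 2 * (7 * Ri ^ 2 * P) * (7 * Rj ^ 2 * P) := by
    gcongr
  have d6 : (r₁ * r₂) ^ 2 * (7 * Ri ^ 2 * P) * (7 * Rj ^ 2 * P) =
      49 * (Ri * Rj * (r₁ * r₂)) ^ 2 * P ^ 2 := by ring
  have d7 : 49 * (Ri * Rj * (r₁ * r₂)) ^ 2 * P ^ 2 ≤ 49 * (H ^ lam) ^ 2 * P ^ 2 := by
    gcongr
  have d8 : (H ^ lam) ^ 2 * P ^ 2 = Z ^ 4 := by
    rw [hP, hZ, ← Real.rpow_natCast, ← Real.rpow_natCast, ← Real.rpow_natCast,
      ← Real.rpow_mul hH0.le, ← Real.rpow_mul hH0.le, ← Real.rpow_mul hH0.le,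
      ← Real.rpow_add hH0]
    congr 1
    push_cast
    ring
  have d9 : (3 * Z) ^ 2 * (3 * Z) ^ 2 = 81 * Z ^ 4 := by ring
  have hZ4 : 0 < Z ^ 4 := by positivity
  nlinarith

/-- The weight of a large modulus. -/
lemma wt_le_three {H lam θ R : ℝ} {q : ℕ} (hH : 1 ≤ H) (hR : 0 < R)
    (hR' : R ≤ H ^ ((1 - θ) * lam)) (hq1 : 1 ≤ q) (hq : H ^ 3 ≤ 64 * (q : ℝ) ^ 4)
    (hl1 : lam ≤ 1) (hc : (2 - 3 * θ) * lam ≤ 1 / 8) :
    wt q R ≤ 3 * R := by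
  have hH0 : 0 < H := lt_of_lt_of_le one_pos hH
  have hq' : (0 : ℝ) < q := by exact_mod_cast hq1
  have hs : 0 < Real.sqrt q := Real.sqrt_pos.mpr hq'
  have h1 : H ^ ((3 : ℝ) / 8) ≤ 2 * Real.sqrt q := by
    have e8 : Real.sqrt q ^ 8 = (q : ℝ) ^ 4 := by
      rw [show (8 : ℕ) = 2 * 4 by norm_num, pow_mul, Real.sq_sqrt hq'.le]
    have : H ^ (3 : ℕ) ≤ (2 * Real.sqrt q) ^ (8 : ℕ) := by
      rw [mul_pow, e8]
      nlinarith [pow_pos hq' 4]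
    calc H ^ ((3 : ℝ) / 8) = (H ^ (3 : ℕ)) ^ ((1 : ℝ) / 8) := by
          rw [← Real.rpow_natCast, ← Real.rpow_mul hH0.le]; norm_num
      _ ≤ ((2 * Real.sqrt q) ^ (8 : ℕ)) ^ ((1 : ℝ) / 8) :=
          Real.rpow_le_rpow (by positivity) this (by norm_num)
      _ = 2 * Real.sqrt q := by
          rw [← Real.rpow_natCast, ← Real.rpow_mul (by positivity)]
          norm_num
  have h2 : R ≤ 2 * Real.sqrt q := by
    refine hR'.trans (le_trans ?_ h1)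
    exact Real.rpow_le_rpow_of_exponent_le hH (by nlinarith)
  unfold wt
  have h3 : R ^ 2 / Real.sqrt q ≤ 2 * R := by
    rw [div_le_iff₀ hs]
    nlinarith
  linarith

/-- The weighted geometric mean. -/
lemma geom_case {H lam θ κ a p b r c : ℝ} (hH : 1 ≤ H) (ha : 0 < a) (hp : 0 < p) (hb : 0 < b)
    (hr : 0 < r) (hc : 0 < c) (hθ : 4 / 7 < θ) (hθ1 : θ ≤ 5 / 8)
    (hκ : 4 - 2 * κ = θ * (7 - 5 * κ)) (hprod : (a * p) * (b * r) * c ≤ H ^ lam) :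
    (a * p) * (b * r) ≤ H ^ (θ * lam) ∨ p * Real.sqrt ((b * r) * c) ≤ H ^ (θ * lam) ∨
    r * Real.sqrt ((a * p) * c) ≤ H ^ (θ * lam) ∨
    a * b * c * (p * r) ^ κ ≤ H ^ (θ * lam) := by
  have hH0 : 0 < H := lt_of_lt_of_le one_pos hH
  by_contra hcon
  push Not at hcon
  obtain ⟨h1, h2, h3, h4⟩ := hcon
  have hZpos : 0 < H ^ (θ * lam) := Real.rpow_pos_of_pos hH0 _
  have l1 := Real.log_lt_log hZpos h1
  have l2 := Real.log_lt_log hZpos h2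
  have l3 := Real.log_lt_log hZpos h3
  have l4 := Real.log_lt_log hZpos h4
  have l5 := Real.log_le_log (by positivity) hprod
  rw [Real.log_rpow hH0, Real.log_mul (by positivity) (by positivity),
    Real.log_mul ha.ne' hp.ne', Real.log_mul hb.ne' hr.ne'] at l1
  rw [Real.log_rpow hH0, Real.log_mul hp.ne' (by positivity), Real.log_sqrt (by positivity),
    Real.log_mul (by positivity) hc.ne', Real.log_mul hb.ne' hr.ne'] at l2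
  rw [Real.log_rpow hH0, Real.log_mul hr.ne' (by positivity), Real.log_sqrt (by positivity),
    Real.log_mul (by positivity) hc.ne', Real.log_mul ha.ne' hp.ne'] at l3
  rw [Real.log_rpow hH0, Real.log_mul (by positivity) (by positivity),
    Real.log_mul (by positivity) hc.ne', Real.log_mul ha.ne' hb.ne',
    Real.log_rpow (by positivity), Real.log_mul hp.ne' hr.ne'] at l4
  rw [Real.log_rpow hH0, Real.log_mul (by positivity) hc.ne',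
    Real.log_mul (by positivity) (by positivity),
    Real.log_mul ha.ne' hp.ne', Real.log_mul hb.ne' hr.ne'] at l5
  generalize Real.log a = A at *
  generalize Real.log p = X at *
  generalize Real.log b = B at *
  generalize Real.log r = Y at *
  generalize Real.log c = T at *
  generalize Real.log H = L at *
  have k1 := mul_lt_mul_of_pos_left l1 (show 0 < (1 - θ) / 3 by linarith)
  have k2 := mul_lt_mul_of_pos_left l2 (show 0 < 2 * (1 - θ) / 3 by linarith)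
  have k3 := mul_lt_mul_of_pos_left l3 (show 0 < 2 * (1 - θ) / 3 by linarith)
  have k4 := mul_lt_mul_of_pos_left l4 (show 0 < (5 * θ - 2) / 3 by linarith)
  have k5 := mul_le_mul_of_nonneg_left l5 (show 0 ≤ θ by linarith)
  have hk : κ * (5 * θ - 2) = 7 * θ - 4 := by linarith
  have e1 : (1 - θ) / 3 * (A + X + (B + Y)) + 2 * (1 - θ) / 3 * (X + (B + Y + T) / 2) +
      2 * (1 - θ) / 3 * (Y + (A + X + T) / 2) +
      (5 * θ - 2) / 3 * (A + B + T + κ * (X + Y)) =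
      θ * (A + X + (B + Y) + T) := by
    have : (5 * θ - 2) / 3 * (A + B + T + κ * (X + Y)) =
        (5 * θ - 2) / 3 * (A + B + T) + (κ * (5 * θ - 2)) / 3 * (X + Y) := by ring
    rw [this, hk]
    ring
  have e2 : (1 - θ) / 3 * (θ * lam * L) + 2 * (1 - θ) / 3 * (θ * lam * L) +
      2 * (1 - θ) / 3 * (θ * lam * L) + (5 * θ - 2) / 3 * (θ * lam * L) = θ * (lam * L) := by
    ring
  linarith


/-- Data of an entry which does not split. -/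
lemma entry_cases (hI : T_I) {H : ℕ} {x : ℤ} (hx : x ≠ 0) (hHx : (H : ℝ) ≤ 4 * |(x : ℝ)|) :
    (∃ (a : ℤ) (p e : ℕ), p.Prime ∧ 1 ≤ e ∧ a ≠ 0 ∧ x = a * (p : ℤ) ^ e ∧ RR x = RR a * p ∧
      (H : ℝ) ^ 3 ≤ 64 * ((p ^ e : ℕ) : ℝ) ^ 4) ∨
    (∃ q₁ q₂ : ℕ, 1 ≤ q₁ ∧ 1 ≤ q₂ ∧ (q₁ : ℤ) ∣ x ∧ (q₂ : ℤ) ∣ x ∧
      RR x = (rad q₁ : ℝ) * rad q₂ ∧ (H : ℝ) ≤ 4 * (q₁ : ℝ) ^ 4 ∧ (H : ℝ) ≤ 4 * (q₂ : ℝ) ^ 4 ∧
      (H : ℝ) ≤ 4 * ((q₁ : ℝ) * q₂)) := by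
  have hn : 1 ≤ x.natAbs := Int.natAbs_pos.mpr hx
  have habs : |(x : ℝ)| = (x.natAbs : ℝ) := by
    rw [← Int.cast_abs, ← Int.natCast_natAbs, Int.cast_natCast]
  rw [habs] at hHx
  rcases hI x.natAbs hn with ⟨p, hp, hpx, hle⟩ | ⟨q₁, q₂, hq, hcop, h1, h2⟩
  · left
    set e := x.natAbs.factorization p with he
    have he1 : 1 ≤ e := by
      rw [he]
      exact (hp.dvd_iff_one_le_factorization (by omega)).mp hpx
    have hdvd : p ^ e ∣ x.natAbs := Nat.ordProj_dvd _ _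
    obtain ⟨a, ha⟩ : ((p : ℤ) ^ e) ∣ x := by
      rw [← Int.natCast_pow]
      exact Int.natCast_dvd.mpr hdvd
    have ha0 : a ≠ 0 := by
      rintro rfl
      apply hx
      rw [ha, mul_zero]
    have hnat : x.natAbs = p ^ e * a.natAbs := by
      rw [ha, Int.natAbs_mul, Int.natAbs_pow, Int.natAbs_natCast]
    have hcop : Nat.Coprime (p ^ e) a.natAbs := by
      have h3 : a.natAbs = x.natAbs / p ^ e := by
        rw [hnat, Nat.mul_div_cancel_left _ (pow_pos hp.pos e)]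
      rw [h3]
      exact (Nat.coprime_ordCompl hp (by omega)).pow_left e
    refine ⟨a, p, e, hp, he1, ha0, ?_, ?_, ?_⟩
    · rw [mul_comm]; exact ha
    · unfold RR
      rw [hnat, rad_mul hcop, rad_prime_pow hp (by omega)]
      push_cast
      ring
    · have h4 : ((x.natAbs : ℝ)) ^ 3 ≤ ((p ^ e : ℕ) : ℝ) ^ 4 := by exact_mod_cast hle
      calc (H : ℝ) ^ 3 ≤ (4 * (x.natAbs : ℝ)) ^ 3 := by gcongr
        _ = 64 * (x.natAbs : ℝ) ^ 3 := by ring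
        _ ≤ 64 * ((p ^ e : ℕ) : ℝ) ^ 4 := by gcongr
  · right
    have hq1 : 1 ≤ q₁ := by
      rcases Nat.eq_zero_or_pos q₁ with h | h
      · rw [h] at hq; omega
      · exact h
    have hq2 : 1 ≤ q₂ := by
      rcases Nat.eq_zero_or_pos q₂ with h | h
      · rw [h] at hq; omega
      · exact h
    refine ⟨q₁, q₂, hq1, hq2, ?_, ?_, ?_, ?_, ?_, ?_⟩
    · exact Int.natCast_dvd.mpr ⟨q₂, hq.symm⟩
    · exact Int.natCast_dvd.mpr ⟨q₁, by rw [mul_comm]; exact hq.symm⟩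
    · unfold RR
      rw [← hq, rad_mul hcop]
      push_cast
      ring
    · have : (x.natAbs : ℝ) ≤ (q₁ : ℝ) ^ 4 := by exact_mod_cast h1
      linarith
    · have : (x.natAbs : ℝ) ≤ (q₂ : ℝ) ^ 4 := by exact_mod_cast h2
      linarith
    · have : (x.natAbs : ℝ) = (q₁ : ℝ) * q₂ := by rw [← hq]; push_cast; ring
      linarith

/-- Cost of a prime power. -/
lemma cost_pp {H lam θ Ri Rj W : ℝ} {p e : ℕ} (hH : 1 ≤ H) (hp : p.Prime) (he : 1 ≤ e)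
    (hRi : 0 < Ri) (hRj : 0 < Rj)
    (hRi' : Ri ≤ H ^ ((1 - θ) * lam)) (hRj' : Rj ≤ H ^ ((1 - θ) * lam))
    (hq : H ^ 3 ≤ 64 * ((p ^ e : ℕ) : ℝ) ^ 4) (hl1 : lam ≤ 1)
    (hc : (2 - 3 * θ) * lam ≤ 1 / 8) (hW : (p : ℝ) * Real.sqrt (Ri * Rj) ≤ W) :
    (rad (p ^ e) : ℝ) * Real.sqrt (wt (p ^ e) Ri * wt (p ^ e) Rj) ≤ 3 * W := by
  have hq1 : 1 ≤ p ^ e := Nat.one_le_pow _ _ hp.pos
  have w1 := wt_le_three (q := p ^ e) hH hRi hRi' hq1 hq hl1 hc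
  have w2 := wt_le_three (q := p ^ e) hH hRj hRj' hq1 hq hl1 hc
  rw [rad_prime_pow hp (by omega)]
  have h1 : Real.sqrt (wt (p ^ e) Ri * wt (p ^ e) Rj) ≤ 3 * Real.sqrt (Ri * Rj) := by
    have : wt (p ^ e) Ri * wt (p ^ e) Rj ≤ 3 ^ 2 * (Ri * Rj) := by
      have := mul_le_mul w1 w2 (wt_pos _ hRj).le (by positivity)
      nlinarith
    calc Real.sqrt (wt (p ^ e) Ri * wt (p ^ e) Rj) ≤ Real.sqrt (3 ^ 2 * (Ri * Rj)) :=
          Real.sqrt_le_sqrt this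
      _ = 3 * Real.sqrt (Ri * Rj) := by
          rw [Real.sqrt_mul (by positivity), Real.sqrt_sq (by norm_num)]
  calc (p : ℝ) * Real.sqrt (wt (p ^ e) Ri * wt (p ^ e) Rj)
      ≤ (p : ℝ) * (3 * Real.sqrt (Ri * Rj)) := by gcongr
    _ = 3 * ((p : ℝ) * Real.sqrt (Ri * Rj)) := by ring
    _ ≤ 3 * W := by gcongr

/-- The base of a high prime power is small. -/
lemma base_small {H lam θ : ℝ} {p e K : ℕ} (hH : 1 ≤ H) (hp : 1 ≤ p) (hK : 1 ≤ K) (he : K < e)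
    (hpe : (p : ℝ) ^ e ≤ H) (hKc : 1 / (K : ℝ) ≤ (2 * θ - 1) * lam) :
    (p : ℝ) ≤ H ^ ((2 * θ - 1) * lam) := by
  have hH0 : 0 < H := lt_of_lt_of_le one_pos hH
  have he0 : (0 : ℝ) < e := by exact_mod_cast (by omega : 0 < e)
  have hK0 : (0 : ℝ) < K := by exact_mod_cast (by omega : 0 < K)
  calc (p : ℝ) = ((p : ℝ) ^ e) ^ ((1 : ℝ) / e) := by
        rw [← Real.rpow_natCast, ← Real.rpow_mul (by positivity), mul_one_div_cancel he0.ne',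
          Real.rpow_one]
    _ ≤ H ^ ((1 : ℝ) / e) := Real.rpow_le_rpow (by positivity) hpe (by positivity)
    _ ≤ H ^ ((1 : ℝ) / K) := by
        apply Real.rpow_le_rpow_of_exponent_le hH
        apply one_div_le_one_div_of_le hK0
        exact_mod_cast he.le
    _ ≤ H ^ ((2 * θ - 1) * lam) := Real.rpow_le_rpow_of_exponent_le hH hKc

end Pool.Agent.H38.AE
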