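import Mathlib

/-!
# Exceptional tuples of the strong `n`-conjecture: statement

`MP_7ecdd4_nt`: an admissible tuple is a tuple of non-zero pairwise coprime integers with sum `0`;
the question is whether there is `M` such that every admissible `n`-tuple satisfies
`max |x i| ≤ rad (∏ x i) ^ M`.
-/

set_option autoImplicit false

namespace Pool.Agent.H38.AE.Statement

/-- The product of the distinct primes dividing the non-zero integer `m`. -/
def radical (m : ℤ) : ℕ := ∏ p ∈ m.natAbs.primeFactors, p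

/-- Admissible `n`-tuples: non-zero entries, pairwise coprime, with sum `0`. -/
def Admissible {n : ℕ} (x : Fin n → ℤ) : Prop :=
  (∀ i, x i ≠ 0) ∧ (∀ i j, i ≠ j → IsCoprime (x i) (x j)) ∧ ∑ i, x i = 0

/-- The admissible `n`-tuples with all entries at most `N` in absolute value, some entry of which
is larger than the `M`-th power of the radical of the product. -/
def Exceptional (n : ℕ) (M : ℝ) (N : ℕ) : Set (Fin n → ℤ) :=
  {x | Admissible x ∧ (∀ i, |x i| ≤ (N : ℤ)) ∧ ∃ i, (radical (∏ i, x i) : ℝ) ^ M < |(x i : ℝ)|}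

/-- The saving: for `n = 3` it is `(9 D + 15) / (21 D + 43)` with `D = ⌊3 M / 2⌋`; for `n ≥ 4` it is
the smaller one of `(3 D + 5) / ((n - 1) (3 D + 5) + 4)`, `D = ⌊3 (n - 1) M / 4⌋`, and
`(8 + M) / (8 n)`. -/
noncomputable def saving (n : ℕ) (M : ℝ) : ℝ :=
  if n = 3 then
    (9 * (⌊3 * M / 2⌋₊ : ℝ) + 15) / (21 * (⌊3 * M / 2⌋₊ : ℝ) + 43)
  else
    min
      ((3 * (⌊3 * ((n : ℝ) - 1) * M / 4⌋₊ : ℝ) + 5) /
        (((n : ℝ) - 1) * (3 * (⌊3 * ((n : ℝ) - 1) * M / 4⌋₊ : ℝ) + 5) + 4))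
      ((8 + M) / (8 * n))

end Pool.Agent.H38.AE.Statement
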