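import Pool.Agent.H38.AE.K

/-! The covering of the exceptional triples, main argument. -/

set_option autoImplicit false

namespace Pool.Agent.H38.AE

lemma ST_sub_SU {H : ℕ} {Z κ : ℝ} {D K : ℕ} {t : ℤ × ℤ × ℤ} (h : t ∈ ST H Z) :
    t ∈ SU H Z κ D K := Or.inl (Or.inl h)

lemma SE_sub_SU {H : ℕ} {Z κ : ℝ} {D K : ℕ} {t : ℤ × ℤ × ℤ} (h : t ∈ SE H Z) :
    t ∈ SU H Z κ D K := Or.inl (Or.inr h)

lemma SJ_sub_SU {H : ℕ} {Z κ : ℝ} {D K : ℕ} {t : ℤ × ℤ × ℤ} (h : t ∈ SJ H Z κ D K) :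
    t ∈ SU H Z κ D K := Or.inr h

lemma Good_of_split {H : ℕ} {x y z : ℤ} {lam θ κ C : ℝ} {D K q₁ q₂ : ℕ} (hH : (1 : ℝ) ≤ H)
    (ht : (x, y, z) ∈ Tri H) (hC : 3 ≤ C)
    (hy : RR y ≤ (H : ℝ) ^ ((1 - θ) * lam)) (hz : RR z ≤ (H : ℝ) ^ ((1 - θ) * lam))
    (hprod : RR x * RR y * RR z ≤ (H : ℝ) ^ lam)
    (hl : 0 < lam) (hl1 : lam ≤ 1) (hθ : 4 / 7 < θ) (hc : (2 - 3 * θ) * lam ≤ 1 / 8)
    (hq1 : 1 ≤ q₁) (hq2 : 1 ≤ q₂) (d1 : (q₁ : ℤ) ∣ x) (d2 : (q₂ : ℤ) ∣ x)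
    (hRx : RR x = (rad q₁ : ℝ) * rad q₂) (h1 : (H : ℝ) ≤ 4 * (q₁ : ℝ) ^ 4)
    (h2 : (H : ℝ) ≤ 4 * (q₂ : ℝ) ^ 4) (h12 : (H : ℝ) ≤ 4 * ((q₁ : ℝ) * q₂)) :
    Good (SU H (C * (H : ℝ) ^ (θ * lam)) κ D K) (x, y, z) := by
  have ht' : (y, z, x) ∈ Tri H := Tri_swap23 (Tri_swap12 ht)
  have hZ : 0 < (H : ℝ) ^ (θ * lam) := Real.rpow_pos_of_pos (by linarith) _
  have hr1 : (0 : ℝ) < rad q₁ := by exact_mod_cast rad_pos _
  have hr2 : (0 : ℝ) < rad q₂ := by exact_mod_cast rad_pos _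
  have hp' : RR y * RR z * ((rad q₁ : ℝ) * rad q₂) ≤ (H : ℝ) ^ lam := by
    rw [← hRx]
    calc RR y * RR z * RR x = RR x * RR y * RR z := by ring
      _ ≤ _ := hprod
  have key := split_case hH (RR_pos y) (RR_pos z) hr1 hr2 hy hz hp' hq1 hq2 h1 h2 h12
    hl hl1 hθ hc
  have hle : 3 * (H : ℝ) ^ (θ * lam) ≤ C * (H : ℝ) ^ (θ * lam) := by gcongr
  have hg : Good (SU H (C * (H : ℝ) ^ (θ * lam)) κ D K) (y, z, x) := by
    rcases key with h | h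
    · exact Good.of_mem (SE_sub_SU ⟨ht', q₁, hq1, d1, h.trans hle⟩)
    · exact Good.of_mem (SE_sub_SU ⟨ht', q₂, hq2, d2, h.trans hle⟩)
  exact (hg.swap23).swap12

lemma Good_of_pp {H : ℕ} {x y z : ℤ} {lam θ κ C : ℝ} {D K p e : ℕ} {a : ℤ} (hH : (1 : ℝ) ≤ H)
    (ht : (x, y, z) ∈ Tri H) (hC : 3 ≤ C) (hp : p.Prime) (he : 1 ≤ e)
    (hx : x = a * (p : ℤ) ^ e)
    (hy : RR y ≤ (H : ℝ) ^ ((1 - θ) * lam)) (hz : RR z ≤ (H : ℝ) ^ ((1 - θ) * lam))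
    (hq : (H : ℝ) ^ 3 ≤ 64 * ((p ^ e : ℕ) : ℝ) ^ 4) (hl1 : lam ≤ 1)
    (hc : (2 - 3 * θ) * lam ≤ 1 / 8)
    (hW : (p : ℝ) * Real.sqrt (RR y * RR z) ≤ (H : ℝ) ^ (θ * lam)) :
    Good (SU H (C * (H : ℝ) ^ (θ * lam)) κ D K) (x, y, z) := by
  have ht' : (y, z, x) ∈ Tri H := Tri_swap23 (Tri_swap12 ht)
  have hZ : 0 < (H : ℝ) ^ (θ * lam) := Real.rpow_pos_of_pos (by linarith) _
  have key := cost_pp hH hp he (RR_pos y) (RR_pos z) hy hz hq hl1 hc hW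
  have hle : 3 * (H : ℝ) ^ (θ * lam) ≤ C * (H : ℝ) ^ (θ * lam) := by gcongr
  have hg : Good (SU H (C * (H : ℝ) ^ (θ * lam)) κ D K) (y, z, x) := by
    refine Good.of_mem (SE_sub_SU ⟨ht', p ^ e, Nat.one_le_pow _ _ hp.pos, ?_, key.trans hle⟩)
    simp only
    rw [hx]
    push_cast
    exact Dvd.intro_left _ rfl
  exact (hg.swap23).swap12

/-- The main case distinction for large first and second entries. -/
lemma main_case (hI : T_I) {H : ℕ} {x y z : ℤ} {lam θ κ C : ℝ} {D K : ℕ} (hH : (1 : ℝ) ≤ H)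
    (ht : (x, y, z) ∈ Tri H) (hC : 3 ≤ C) (hl : 0 < lam) (hl1 : lam ≤ 1) (hθ : 4 / 7 < θ)
    (hθ1 : θ ≤ 5 / 8) (hκ : 4 - 2 * κ = θ * (7 - 5 * κ))
    (hc : (2 - 3 * θ) * lam ≤ 1 / 8)
    (hK : 1 ≤ K) (hKc : 1 / (K : ℝ) ≤ (2 * θ - 1) * lam)
    (hH0 : 64 < (H : ℝ) ^ (3 - 4 * ((D : ℝ) * ((1 - θ) * lam))))
    (hRx : RR x ≤ (H : ℝ) ^ ((1 - θ) * lam)) (hRy : RR y ≤ (H : ℝ) ^ ((1 - θ) * lam))
    (hRz : RR z ≤ (H : ℝ) ^ ((1 - θ) * lam))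
    (hprod : RR x * RR y * RR z ≤ (H : ℝ) ^ lam)
    (hxl : (H : ℝ) ≤ 4 * |(x : ℝ)|) (hyl : (H : ℝ) ≤ 4 * |(y : ℝ)|) :
    Good (SU H (C * (H : ℝ) ^ (θ * lam)) κ D K) (x, y, z) := by
  have hHpos : (0 : ℝ) < H := by linarith
  have hx0 : x ≠ 0 := ht.1
  have hy0 : y ≠ 0 := ht.2.1
  have hprod' : RR y * RR x * RR z ≤ (H : ℝ) ^ lam := by
    calc RR y * RR x * RR z = RR x * RR y * RR z := by ring
      _ ≤ _ := hprod
  rcases entry_cases hI hx0 hxl with ⟨a, p, e, hp, he, ha0, hxe, hRxe, hpe⟩ |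
    ⟨q₁, q₂, hq1, hq2, d1, d2, hR, h1, h2, h12⟩
  swap
  · exact Good_of_split hH ht hC hRy hRz hprod hl hl1 hθ hc hq1 hq2 d1 d2 hR h1 h2 h12
  rcases entry_cases hI hy0 hyl with ⟨b, r, f, hr, hf, hb0, hyf, hRyf, hrf⟩ |
    ⟨q₁, q₂, hq1, hq2, d1, d2, hR, h1, h2, h12⟩
  swap
  · exact (Good_of_split hH (Tri_swap12 ht) hC hRx hRz hprod' hl hl1 hθ hc hq1 hq2 d1 d2 hR
      h1 h2 h12).swap12
  -- sizes
  have size : ∀ (w c : ℤ) (s g : ℕ), w ≠ 0 → |(w : ℝ)| ≤ H → c ≠ 0 → w = c * (s : ℤ) ^ g →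
      (s : ℝ) ^ g ≤ H := by
    intro w c s g _ hw hc0 hwc
    have h1 : |(w : ℝ)| = |(c : ℝ)| * (s : ℝ) ^ g := by
      rw [hwc]; push_cast
      rw [abs_mul, abs_of_nonneg (by positivity : (0 : ℝ) ≤ (s : ℝ) ^ g)]
    have h2 : (1 : ℝ) ≤ |(c : ℝ)| := by
      have : (1 : ℤ) ≤ |c| := Int.one_le_abs hc0
      exact_mod_cast this
    have h3 : (0 : ℝ) ≤ (s : ℝ) ^ g := by positivity
    calc (s : ℝ) ^ g = 1 * (s : ℝ) ^ g := (one_mul _).symm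
      _ ≤ |(c : ℝ)| * (s : ℝ) ^ g := by gcongr
      _ = |(w : ℝ)| := h1.symm
      _ ≤ H := hw
  have hxH : |(x : ℝ)| ≤ H := by
    have := ht.2.2.2.2.2.2.2.1
    simp only at this
    exact_mod_cast this
  have hyH : |(y : ℝ)| ≤ H := by
    have := ht.2.2.2.2.2.2.2.2.1
    simp only at this
    exact_mod_cast this
  have hpeH := size x a p e hx0 hxH ha0 hxe
  have hrfH := size y b r f hy0 hyH hb0 hyf
  have comb : ∀ W : ℝ, W ≤ (H : ℝ) ^ ((2 * θ - 1) * lam) → 0 ≤ W → ∀ u v : ℤ,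
      RR u ≤ (H : ℝ) ^ ((1 - θ) * lam) → RR v ≤ (H : ℝ) ^ ((1 - θ) * lam) →
      W * Real.sqrt (RR u * RR v) ≤ (H : ℝ) ^ (θ * lam) := by
    intro W hW hW0 u v hu hv
    have h1 : Real.sqrt (RR u * RR v) ≤ (H : ℝ) ^ ((1 - θ) * lam) := by
      rw [Real.sqrt_le_left (by positivity)]
      have := mul_le_mul hu hv (RR_pos v).le (by positivity)
      nlinarith
    calc W * Real.sqrt (RR u * RR v) ≤ (H : ℝ) ^ ((2 * θ - 1) * lam) *
          (H : ℝ) ^ ((1 - θ) * lam) := by gcongr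
      _ = (H : ℝ) ^ (θ * lam) := by rw [← Real.rpow_add hHpos]; congr 1; ring
  -- exponents at most K
  by_cases heK : K < e
  · exact Good_of_pp hH ht hC hp he hxe hRy hRz hpe hl1 hc
      (comb _ (base_small hH hp.one_lt.le hK heK hpeH hKc) (by positivity) y z hRy hRz)
  by_cases hfK : K < f
  · exact (Good_of_pp hH (Tri_swap12 ht) hC hr hf hyf hRx hRz hrf hl1 hc
      (comb _ (base_small hH hr.one_lt.le hK hfK hrfH hKc) (by positivity) x z hRx hRz)).swap12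
  push Not at heK hfK
  -- exponents larger than D
  have exD : ∀ (w c : ℤ) (s g : ℕ), s.Prime → RR w ≤ (H : ℝ) ^ ((1 - θ) * lam) →
      RR w = RR c * s → (H : ℝ) ^ 3 ≤ 64 * ((s ^ g : ℕ) : ℝ) ^ 4 → D < g := by
    intro w c s g hs hw hws hsg
    by_contra hg
    push Not at hg
    have h1 : (s : ℝ) ≤ (H : ℝ) ^ ((1 - θ) * lam) := by
      have : (s : ℝ) ≤ RR c * s := by
        have := one_le_RR c
        nlinarith [show (0 : ℝ) ≤ s by positivity]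
      linarith
    have hs1 : (1 : ℝ) ≤ s := by exact_mod_cast hs.one_lt.le
    have h2 : ((s ^ g : ℕ) : ℝ) ^ 4 ≤ (H : ℝ) ^ (4 * ((D : ℝ) * ((1 - θ) * lam))) := by
      push_cast
      calc ((s : ℝ) ^ g) ^ 4 ≤ ((s : ℝ) ^ D) ^ 4 := by gcongr
        _ = (s : ℝ) ^ (D * 4) := by rw [← pow_mul]
        _ ≤ ((H : ℝ) ^ ((1 - θ) * lam)) ^ (D * 4) := by gcongr
        _ = (H : ℝ) ^ (4 * ((D : ℝ) * ((1 - θ) * lam))) := by
            rw [← Real.rpow_natCast, ← Real.rpow_mul hHpos.le]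
            congr 1; push_cast; ring
    have h3 : (H : ℝ) ^ (3 - 4 * ((D : ℝ) * ((1 - θ) * lam))) ≤ 64 := by
      rw [Real.rpow_sub hHpos, div_le_iff₀ (Real.rpow_pos_of_pos hHpos _)]
      calc (H : ℝ) ^ (3 : ℝ) = (H : ℝ) ^ 3 := by norm_cast
        _ ≤ 64 * ((s ^ g : ℕ) : ℝ) ^ 4 := hsg
        _ ≤ 64 * (H : ℝ) ^ (4 * ((D : ℝ) * ((1 - θ) * lam))) := by gcongr
    linarith
  have heD := exD x a p e hp hRx hRxe hpe
  have hfD := exD y b r f hr hRy hRyf hrf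
  have hp0 : (0 : ℝ) < p := by exact_mod_cast hp.pos
  have hr0 : (0 : ℝ) < r := by exact_mod_cast hr.pos
  have hgeo := geom_case (κ := κ) hH (RR_pos a) hp0 (RR_pos b) hr0 (RR_pos z) hθ hθ1 hκ
    (by rw [← hRxe, ← hRyf]; exact hprod)
  rw [← hRxe, ← hRyf] at hgeo
  have hZ : 0 < (H : ℝ) ^ (θ * lam) := Real.rpow_pos_of_pos hHpos _
  have hle : (H : ℝ) ^ (θ * lam) ≤ C * (H : ℝ) ^ (θ * lam) := by nlinarith
  rcases hgeo with h | h | h | h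
  · exact Good.of_mem (ST_sub_SU ⟨ht, h.trans hle⟩)
  · exact Good_of_pp hH ht hC hp he hxe hRy hRz hpe hl1 hc h
  · exact (Good_of_pp hH (Tri_swap12 ht) hC hr hf hyf hRx hRz hrf hl1 hc h).swap12
  · exact Good.of_mem (SJ_sub_SU ⟨ht, a, b, p, r, e, f, hp.one_lt.le, hr.one_lt.le, heD, heK,
      hfD, hfK, hxe, hyf, h.trans hle⟩)

/-- From the pair condition to the individual radicals. -/
lemma radical_small {H u v w lam θ C : ℝ} (hH : 0 < H) (hC : 1 ≤ C)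
    (hprod : u * v * w ≤ H ^ lam) (hpair : C * H ^ (θ * lam) < v * w) :
    u ≤ H ^ ((1 - θ) * lam) := by
  have hZ : 0 < H ^ (θ * lam) := Real.rpow_pos_of_pos hH _
  by_contra hcon
  push Not at hcon
  have h1 : H ^ ((1 - θ) * lam) * H ^ (θ * lam) = H ^ lam := by
    rw [← Real.rpow_add hH]; congr 1; ring
  have h2 : H ^ (θ * lam) < v * w := by nlinarith
  have h3 : H ^ ((1 - θ) * lam) * H ^ (θ * lam) < u * (v * w) :=
    mul_lt_mul'' hcon h2 (by positivity) hZ.le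
  rw [h1] at h3
  nlinarith

theorem pf_K (hI : T_I) : T_K := by
  intro D lam θ κ hl hl1 hθ hθ1 hκ0 hκ hc hD
  set δ : ℝ := 3 - 4 * ((D : ℝ) * ((1 - θ) * lam)) with hδ
  have hδ0 : 0 < δ := by rw [hδ]; linarith
  obtain ⟨K, hK⟩ := exists_nat_ge (1 / ((2 * θ - 1) * lam) + 1)
  obtain ⟨H₀, hH₀⟩ := exists_nat_gt ((64 : ℝ) ^ (1 / δ))
  have hm : 0 < (2 * θ - 1) * lam := by nlinarith
  have hK1 : (1 : ℝ) ≤ K := by
    have : 0 < 1 / ((2 * θ - 1) * lam) := by positivity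
    linarith
  have hKc : 1 / (K : ℝ) ≤ (2 * θ - 1) * lam := by
    rw [div_le_iff₀ (by linarith)]
    have h1 : 1 / ((2 * θ - 1) * lam) ≤ K := by linarith
    rw [div_le_iff₀ hm] at h1
    linarith
  refine ⟨3 + (H₀ : ℝ) ^ 2, K, by positivity, ?_⟩
  rintro H ⟨x, y, z⟩ hH ht hbig hprod
  have hH1 : (1 : ℝ) ≤ H := by exact_mod_cast hH
  have hHpos : (0 : ℝ) < H := by linarith
  have hC3 : (3 : ℝ) ≤ 3 + (H₀ : ℝ) ^ 2 := by have := sq_nonneg (H₀ : ℝ); linarith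
  set C : ℝ := 3 + (H₀ : ℝ) ^ 2 with hCdef
  have hmp : 0 < θ * lam := by nlinarith
  have hZ1 : 1 ≤ (H : ℝ) ^ (θ * lam) := Real.one_le_rpow hH1 hmp.le
  change Good (SU H (C * (H : ℝ) ^ (θ * lam)) κ D K) (x, y, z)
  simp only at hbig hprod
  by_cases hsmall : H < H₀
  · -- small heights
    apply Good.of_mem
    apply ST_sub_SU
    refine ⟨ht, ?_⟩
    simp only
    have h1 : RR x ≤ H := by
      refine (RR_le_abs ht.1).trans ?_
      have := ht.2.2.2.2.2.2.2.1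
      simp only at this
      exact_mod_cast this
    have h2 : RR y ≤ H := by
      refine (RR_le_abs ht.2.1).trans ?_
      have := ht.2.2.2.2.2.2.2.2.1
      simp only at this
      exact_mod_cast this
    have h3 : (H : ℝ) ≤ H₀ := by exact_mod_cast hsmall.le
    calc RR x * RR y ≤ H * H := mul_le_mul h1 h2 (RR_pos y).le hHpos.le
      _ ≤ H₀ * H₀ := mul_le_mul h3 h3 hHpos.le (by positivity)
      _ ≤ C := by rw [hCdef]; nlinarith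
      _ = C * 1 := (mul_one _).symm
      _ ≤ C * (H : ℝ) ^ (θ * lam) := by gcongr
  push Not at hsmall
  have hH0 : 64 < (H : ℝ) ^ δ := by
    have h1 : (64 : ℝ) ^ (1 / δ) < H := lt_of_lt_of_le hH₀ (by exact_mod_cast hsmall)
    calc (64 : ℝ) = ((64 : ℝ) ^ (1 / δ)) ^ δ := by
          rw [← Real.rpow_mul (by norm_num), one_div_mul_cancel hδ0.ne', Real.rpow_one]
      _ < (H : ℝ) ^ δ := Real.rpow_lt_rpow (by positivity) h1 hδ0
  have hK1' : 1 ≤ K := by exact_mod_cast hK1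
  by_cases p12 : RR x * RR y ≤ C * (H : ℝ) ^ (θ * lam)
  · exact Good.of_mem (ST_sub_SU ⟨ht, p12⟩)
  by_cases p13 : RR x * RR z ≤ C * (H : ℝ) ^ (θ * lam)
  · exact (Good.of_mem (ST_sub_SU ⟨Tri_swap23 ht, p13⟩)).swap23
  by_cases p23 : RR y * RR z ≤ C * (H : ℝ) ^ (θ * lam)
  · have : Good (SU H (C * (H : ℝ) ^ (θ * lam)) κ D K) (y, z, x) :=
      Good.of_mem (ST_sub_SU ⟨Tri_swap23 (Tri_swap12 ht), p23⟩)
    exact this.swap23.swap12
  push Not at p12 p13 p23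
  have hC1 : (1 : ℝ) ≤ C := by linarith
  have hRx : RR x ≤ (H : ℝ) ^ ((1 - θ) * lam) :=
    radical_small hHpos hC1 hprod p23
  have hRy : RR y ≤ (H : ℝ) ^ ((1 - θ) * lam) :=
    radical_small hHpos hC1 (v := RR x) (w := RR z)
      (by rw [mul_comm (RR y)]; exact hprod) p13
  have hRz : RR z ≤ (H : ℝ) ^ ((1 - θ) * lam) :=
    radical_small hHpos hC1 (v := RR x) (w := RR y)
      (by calc RR z * RR x * RR y = RR x * RR y * RR z := by ring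
            _ ≤ _ := hprod) p12
  -- two large entries
  have hsum : x + y + z = 0 := ht.2.2.2.2.2.2.1
  have hsumR : (x : ℝ) + y + z = 0 := by exact_mod_cast hsum
  have key : ((H : ℝ) ≤ 4 * |(x : ℝ)| ∧ (H : ℝ) ≤ 4 * |(y : ℝ)|) ∨
      ((H : ℝ) ≤ 4 * |(x : ℝ)| ∧ (H : ℝ) ≤ 4 * |(z : ℝ)|) ∨
      ((H : ℝ) ≤ 4 * |(y : ℝ)| ∧ (H : ℝ) ≤ 4 * |(z : ℝ)|) := by
    have e1 : |(x : ℝ)| ≤ |(y : ℝ)| + |(z : ℝ)| := by
      have : (x : ℝ) = -(y + z) := by linarith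
      rw [this, abs_neg]; exact abs_add_le _ _
    have e2 : |(y : ℝ)| ≤ |(x : ℝ)| + |(z : ℝ)| := by
      have : (y : ℝ) = -(x + z) := by linarith
      rw [this, abs_neg]; exact abs_add_le _ _
    have e3 : |(z : ℝ)| ≤ |(x : ℝ)| + |(y : ℝ)| := by
      have : (z : ℝ) = -(x + y) := by linarith
      rw [this, abs_neg]; exact abs_add_le _ _
    have hb : (H : ℝ) < 2 * |(x : ℝ)| ∨ (H : ℝ) < 2 * |(y : ℝ)| ∨ (H : ℝ) < 2 * |(z : ℝ)| := by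
      rcases hbig with h | h | h
      · left; exact_mod_cast h
      · right; left; exact_mod_cast h
      · right; right; exact_mod_cast h
    by_contra hcon
    push Not at hcon
    obtain ⟨c1, c2, c3⟩ := hcon
    rcases hb with h | h | h
    · have hx' : (H : ℝ) ≤ 4 * |(x : ℝ)| := by linarith
      have := c1 hx'
      have := c2 hx'
      linarith
    · have hy' : (H : ℝ) ≤ 4 * |(y : ℝ)| := by linarith
      have := c3 hy'
      have h4 : ¬ (H : ℝ) ≤ 4 * |(x : ℝ)| := fun hx' => absurd (c1 hx') (not_lt.mpr hy')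
      push Not at h4
      linarith
    · have hz' : (H : ℝ) ≤ 4 * |(z : ℝ)| := by linarith
      have h4 : ¬ (H : ℝ) ≤ 4 * |(x : ℝ)| := fun hx' => absurd (c2 hx') (not_lt.mpr hz')
      have h5 : ¬ (H : ℝ) ≤ 4 * |(y : ℝ)| := fun hy' => absurd (c3 hy') (not_lt.mpr hz')
      push Not at h4 h5
      linarith
  rcases key with ⟨k1, k2⟩ | ⟨k1, k2⟩ | ⟨k1, k2⟩
  · exact main_case hI hH1 ht hC3 hl hl1 hθ hθ1 hκ hc hK1' hKc hH0 hRx hRy hRz hprod k1 k2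
  · exact (main_case hI hH1 (Tri_swap23 ht) hC3 hl hl1 hθ hθ1 hκ hc hK1' hKc hH0 hRx hRz hRy
      (by calc RR x * RR z * RR y = RR x * RR y * RR z := by ring
            _ ≤ _ := hprod) k1 k2).swap23
  · have : Good (SU H (C * (H : ℝ) ^ (θ * lam)) κ D K) (y, z, x) :=
      main_case hI hH1 (Tri_swap23 (Tri_swap12 ht)) hC3 hl hl1 hθ hθ1 hκ hc hK1' hKc hH0
        hRy hRz hRx
        (by calc RR y * RR z * RR x = RR x * RR y * RR z := by ring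
              _ ≤ _ := hprod) k1 k2
    exact this.swap23.swap12

end Pool.Agent.H38.AE
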