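import Pool.Agent.H38.AE.Targets

/-! The main theorem from the module targets. -/

set_option autoImplicit false

namespace Pool.Agent.H38.AE

theorem pf_MF (hHA : T_HA) (hL : T_L) : T_MF := by
  intro M ε hM hε
  have hM0 : 0 < M := by linarith
  set D : ℕ := ⌊3 * M / 2⌋₊ with hD
  have hD1 : 1 ≤ D := by
    rw [hD]
    apply Nat.le_floor
    push_cast
    linarith
  have hDle : (D : ℝ) ≤ 3 * M / 2 := Nat.floor_le (by positivity)
  have hD1' : (1 : ℝ) ≤ D := by exact_mod_cast hD1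
  set d : ℝ := (D : ℝ) with hd
  set θ : ℝ := (12 * d + 28) / (21 * d + 43) with hθ
  set κ : ℝ := 4 / (3 * (d + 3)) with hκ
  have p1 : 0 < 21 * d + 43 := by linarith
  have p2 : 0 < 3 * (d + 3) := by linarith
  have h1 : 4 / 7 < θ := by
    rw [hθ, lt_div_iff₀ p1]; linarith
  have h2 : θ ≤ 5 / 8 := by
    rw [hθ, div_le_iff₀ p1]; linarith
  have h3 : 0 ≤ κ := by positivity
  have h4 : 4 - 2 * κ = θ * (7 - 5 * κ) := by
    rw [hθ, hκ]; field_simp; ring
  have e5 : 2 - 3 * θ = (6 * d + 2) / (21 * d + 43) := by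
    rw [hθ]; field_simp; ring
  have e6 : 1 - θ = (9 * d + 15) / (21 * d + 43) := by
    rw [hθ]; field_simp; ring
  have hM2 : 2 * d / 3 ≤ M := by linarith
  have h5 : (2 - 3 * θ) * (1 / M) ≤ 1 / 8 := by
    rw [e5, div_mul_div_comm, mul_one, div_le_div_iff₀ (by positivity) (by norm_num)]
    rcases Nat.lt_or_ge D 2 with h | h
    · have : D = 1 := by omega
      have hd1 : d = 1 := by rw [hd, this]; norm_num
      rw [hd1]
      linarith
    · have hd2 : (2 : ℝ) ≤ d := by rw [hd]; exact_mod_cast h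
      have : (21 * d + 43) * (2 * d / 3) ≤ (21 * d + 43) * M := by gcongr
      nlinarith
  have h6 : (D : ℝ) * ((1 - θ) * (1 / M)) < 3 / 4 := by
    rw [e6, ← hd, div_mul_div_comm, mul_one, ← mul_div_assoc,
      div_lt_div_iff₀ (by positivity) (by norm_num)]
    have : (21 * d + 43) * (2 * d / 3) ≤ (21 * d + 43) * M := by gcongr
    nlinarith
  obtain ⟨C, hC, h⟩ := hL D M θ κ hM h1 h2 h3 h4 h5 h6 (hHA D hD1) ε hε
  refine ⟨C, hC, fun N hN => ?_⟩
  have := h N hN
  rw [hθ, div_div] at this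
  exact this

end Pool.Agent.H38.AE
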