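import Pool.Agent.H38.AE.Core
import Pool.Agent.H38.AE.K2
import Pool.Agent.H38.AE.MF
import Pool.Agent.H31.AE.L
import Pool.Agent.H59.AE.J2
import Pool.Agent.H69.AE.J1
import Pool.Agent.H74.AE.J3

/-! Assembly: the exceptional triples. -/

set_option autoImplicit false

namespace Pool.Agent.H38.AE

theorem pf_all : T_MF :=
  pf_MF pf_HA'
    (Pool.Agent.H31.AE.pf_L (Pool.Agent.H69.AE.pf_J1 Pool.Agent.H74.AE.A.pf_A)
      (Pool.Agent.H59.AE.pf_J2 Pool.Agent.H74.AE.A.pf_A pf_G')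
      (Pool.Agent.H74.AE.J3.pf_J3 Pool.Agent.H74.AE.A.pf_A) (pf_K Pool.Agent.H54.AE.I.pf_I))

end Pool.Agent.H38.AE
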