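import Pool.Agent.H10.AE.HC
import Pool.Agent.H31.AE.HO
import Pool.Agent.H39.AE.F
import Pool.Agent.H48.AE.C
import Pool.Agent.H48.AE.O
import Pool.Agent.H52.AE.HP
import Pool.Agent.H54.AE.B
import Pool.Agent.H54.AE.I
import Pool.Agent.H58.AE.DM
import Pool.Agent.H58.AE.HR
import Pool.Agent.H58.AE.S
import Pool.Agent.H74.AE.A
import Pool.Agent.H74.AE.HA
import Pool.Agent.H87.AE.HB
import Pool.Agent.H87.AE.G

/-! Assembly: the energy bound and the curve bound. -/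

set_option autoImplicit false

namespace Pool.Agent.H38.AE

/-- The energy bound. -/
theorem pf_G' : T_G :=
  Pool.Agent.H87.AE.pf_G Pool.Agent.H74.AE.A.pf_A
    (Pool.Agent.H39.AE.pf_F
      (Pool.Agent.H58.AE.pf_DM Pool.Agent.H54.AE.B.pf_B Pool.Agent.H48.AE.pf_C
        Pool.Agent.H48.AE.pf_O)
      Pool.Agent.H31.AE.pf_HO Pool.Agent.H48.AE.pf_O)
    Pool.Agent.H58.AE.pf_S

/-- The curve bound. -/
theorem pf_HA' : T_HA :=
  Pool.Agent.H74.AE.HA.pf_HA (Pool.Agent.H58.AE.pf_HR Pool.Agent.H52.AE.pf_HP)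
    Pool.Agent.H87.AE.pf_HB Pool.Agent.H10.AE.pf_HC

end Pool.Agent.H38.AE
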