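import Pool.Agent.H38.AE.TargetsN

/-! From the targets to the final statement. -/

set_option autoImplicit false

namespace Pool.Agent.H38.AE

lemma adm_finite (n N : ℕ) : (Adm n N).Finite := by
  apply Set.Finite.subset (Set.Finite.pi' (fun _ : Fin n => Set.finite_Icc (-(N : ℤ)) N))
  intro x hx i
  exact abs_le.mp (hx.2.2.2 i)

lemma excN_finite (n : ℕ) (M : ℝ) (N : ℕ) : (ExcN n M N).Finite :=
  (adm_finite n N).subset fun _ hx => hx.1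

lemma sav3 (M : ℝ) : (1 : ℝ) / 3 < (9 * (⌊3 * M / 2⌋₊ : ℝ) + 15) / (21 * (⌊3 * M / 2⌋₊ : ℝ) + 43) := by
  have h : (0 : ℝ) ≤ (⌊3 * M / 2⌋₊ : ℝ) := by positivity
  rw [div_lt_div_iff₀ (by norm_num) (by positivity)]
  linarith

lemma exp3 (M : ℝ) (hM : 1 ≤ M) :
    (1 - (9 * (⌊3 * M / 2⌋₊ : ℝ) + 15) / (21 * (⌊3 * M / 2⌋₊ : ℝ) + 43)) / M =
      (12 * (⌊3 * M / 2⌋₊ : ℝ) + 28) / ((21 * (⌊3 * M / 2⌋₊ : ℝ) + 43) * M) := by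
  have h : (0 : ℝ) < 21 * (⌊3 * M / 2⌋₊ : ℝ) + 43 := by positivity
  have hM0 : M ≠ 0 := by linarith
  field_simp
  ring

lemma savN (n : ℕ) (M : ℝ) (hn : 4 ≤ n) (hM : 1 ≤ M) :
    (1 : ℝ) / n < min
      ((3 * (⌊3 * ((n : ℝ) - 1) * M / 4⌋₊ : ℝ) + 5) /
        (((n : ℝ) - 1) * (3 * (⌊3 * ((n : ℝ) - 1) * M / 4⌋₊ : ℝ) + 5) + 4))
      ((8 + M) / (8 * n)) := by
  have hn' : (4 : ℝ) ≤ n := by exact_mod_cast hn
  have h : (0 : ℝ) ≤ (⌊3 * ((n : ℝ) - 1) * M / 4⌋₊ : ℝ) := by positivity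
  generalize (⌊3 * ((n : ℝ) - 1) * M / 4⌋₊ : ℝ) = d at h ⊢
  have h1 : 0 < ((n : ℝ) - 1) * (3 * d + 5) + 4 := by
    have : 0 ≤ ((n : ℝ) - 1) * (3 * d + 5) := mul_nonneg (by linarith) (by linarith)
    linarith
  refine lt_min ?_ ?_
  · rw [div_lt_div_iff₀ (by linarith) h1]
    nlinarith
  · rw [div_lt_div_iff₀ (by linarith) (by linarith)]
    nlinarith

end Pool.Agent.H38.AE
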