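import Pool.Agent.H38.AE.N4a

/-! The covering for `n`-tuples. -/

set_option autoImplicit false

namespace Pool.Agent.H38.AE

lemma aux1 {w1 w2 w3 w4 Ri Rj K : ℝ} (h1 : 0 < w1) (h2 : 0 < w2) (h3 : 0 < w3) (h4 : 0 < w4)
    (hRi : 0 < Ri) (hRj : 0 < Rj) (hK : 0 < K) (fi : w1 * w3 ≤ K * Ri ^ 2)
    (fj : w2 * w4 ≤ K * Rj ^ 2) :
    Real.sqrt (w1 * w2) * Real.sqrt (w3 * w4) ≤ K * (Ri * Rj) := by
  rw [← Real.sqrt_mul (by positivity), Real.sqrt_le_left (by positivity)]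
  calc w1 * w2 * (w3 * w4) = (w1 * w3) * (w2 * w4) := by ring
    _ ≤ (K * Ri ^ 2) * (K * Rj ^ 2) := mul_le_mul fi fj (by positivity) (by positivity)
    _ = (K * (Ri * Rj)) ^ 2 := by ring

lemma aux2 {w1 w2 Ri Rj c : ℝ} (h2 : 0 < w2) (hRi : 0 < Ri)
    (hc : 0 < c) (hi : w1 ≤ c * Ri) (hj : w2 ≤ c * Rj) :
    Real.sqrt (w1 * w2) ≤ c * Real.sqrt (Ri * Rj) := by
  have hw : w1 * w2 ≤ c ^ 2 * (Ri * Rj) := by
    calc w1 * w2 ≤ (c * Ri) * (c * Rj) := mul_le_mul hi hj h2.le (by positivity)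
      _ = _ := by ring
  calc Real.sqrt (w1 * w2) ≤ Real.sqrt (c ^ 2 * (Ri * Rj)) := Real.sqrt_le_sqrt hw
    _ = c * Real.sqrt (Ri * Rj) := by
        rw [Real.sqrt_mul (by positivity), Real.sqrt_sq hc.le]

/-- Final computation of the split case. -/
lemma aux3 {Z r₁ r₂ P S₁ S₂ K Ri Rj Rk R : ℝ} (hZ : 0 < Z) (h1 : Z < r₁ * P * S₁)
    (h2 : Z < r₂ * P * S₂) (hr1 : 0 < r₁) (hr2 : 0 < r₂)
    (key : S₁ * S₂ ≤ K * (Ri * Rj)) (hRk : Rk = r₁ * r₂) (hR : R = Ri * Rj * Rk * P) :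
    Z ^ 2 < K * R * P := by
  calc Z ^ 2 = Z * Z := by ring
    _ < (r₁ * P * S₁) * (r₂ * P * S₂) := mul_lt_mul'' h1 h2 hZ.le hZ.le
    _ = (r₁ * r₂) * P ^ 2 * (S₁ * S₂) := by ring
    _ ≤ (r₁ * r₂) * P ^ 2 * (K * (Ri * Rj)) := by gcongr
    _ = K * R * P := by rw [hR, hRk]; ring

/-- Final computation of the prime power case. -/
lemma aux4 {Z p P c S W Ri Rj Rk A R : ℝ} (hZ0 : 0 < Z) (h : Z < p * P * W) (hp : 0 < p)
    (hP : 0 < P) (hW : W ≤ c * S) (hSS : S * S = Ri * Rj) (hS : 0 < S) (hA : 0 < A)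
    (hRk : Rk = A * p) (hR : R = Ri * Rj * Rk * P) :
    A * S ≤ c * (R / Z) := by
  have h2 : Z ≤ p * P * (c * S) := by
    refine h.le.trans ?_
    gcongr
  rw [← mul_div_assoc, le_div_iff₀ hZ0, hR, hRk]
  calc A * S * Z ≤ A * S * (p * P * (c * S)) := by gcongr
    _ = c * ((S * S) * (A * p) * P) := by ring
    _ = c * (Ri * Rj * (A * p) * P) := by rw [hSS]

/-- Final computation of the high power case. -/
lemma aux5 {Z p P K b S Ri Rj Rk A R : ℝ} {N : ℕ} (hZ0 : 0 < Z) (hR0 : 0 < R)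
    (hp : p ≤ b) (hb : 0 < b) (hP : 0 < P) (hK : 0 < K) (hSS : S * S = Ri * Rj) (hS : 0 < S)
    (hSμ : S < R / Z) (hA : 0 < A) (hAS : A * S ≤ K * (R / Z)) (hPle : P ≤ (R / Z) ^ N)
    (hRk : Rk = A * p) (hR : R = Ri * Rj * Rk * P) :
    Z ^ (N + 2) < (K * b) * R ^ (N + 1) := by
  have hμ0 : 0 < R / Z := div_pos hR0 hZ0
  have h1 : R < b * (K * (R / Z)) * (R / Z) * (R / Z) ^ N := by
    calc R = p * (A * S) * S * P := by
          rw [hR, hRk, ← hSS]; ring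
      _ < b * (K * (R / Z)) * (R / Z) * (R / Z) ^ N := by
          have a1 : p * (A * S) ≤ b * (K * (R / Z)) :=
            mul_le_mul hp hAS (by positivity) hb.le
          have a2 : p * (A * S) * S < b * (K * (R / Z)) * (R / Z) :=
            mul_lt_mul' a1 hSμ hS.le (by positivity)
          exact mul_lt_mul a2 hPle hP (by positivity)
  have e : b * (K * (R / Z)) * (R / Z) * (R / Z) ^ N = (K * b) * (R / Z) ^ (N + 2) := by ring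
  rw [e, div_pow, ← mul_div_assoc, lt_div_iff₀ (by positivity)] at h1
  have e2 : (K * b) * R ^ (N + 2) = R * ((K * b) * R ^ (N + 1)) := by ring
  rw [e2] at h1
  exact lt_of_mul_lt_mul_left h1 hR0.le

lemma prod_three {n : ℕ} (x : Fin n → ℤ) {i j k : Fin n} (hij : i ≠ j) (hik : i ≠ k)
    (hjk : j ≠ k) : ∏ l, RR (x l) = RR (x i) * RR (x j) * RR (x k) *
      ∏ l ∈ ({i, j, k} : Finset (Fin n))ᶜ, RR (x l) := by
  rw [prod_split _ {i, j, k}]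
  congr 1
  rw [Finset.prod_insert (by simp [hij, hik]), Finset.prod_insert (by simp [hjk]),
    Finset.prod_singleton]
  ring

lemma compl_le {n : ℕ} (x : Fin n → ℤ) {i j k : Fin n} (hij : i ≠ j) (hik : i ≠ k)
    (hjk : j ≠ k) (μ : ℝ) (hT : ∀ l, RR (x l) ≤ μ) :
    ∏ l ∈ ({i, j, k} : Finset (Fin n))ᶜ, RR (x l) ≤ μ ^ (n - 3) := by
  have hcard : ({i, j, k} : Finset (Fin n)).card = 3 := Finset.card_eq_three.mpr
    ⟨i, j, k, hij, hik, hjk, rfl⟩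
  have := prod_compl_le (fun l => RR (x l)) {i, j, k} μ (fun l => (RR_pos _).le) hT
  rwa [hcard] at this

/-- Split entry. -/
lemma n_split {n H : ℕ} {x : Fin n → ℤ} {lam m s c C : ℝ} {i j k : Fin n} {q₁ q₂ : ℕ}
    (hn : 3 ≤ n) (hH : (1 : ℝ) ≤ H) (hx : x ∈ Adm n H) (hij : i ≠ j) (hik : i ≠ k) (hjk : j ≠ k)
    (hc : 1 ≤ c) (hC : 4 * c ≤ C)
    (hprod : ∏ l, RR (x l) ≤ (H : ℝ) ^ lam)
    (hs : s = lam * (1 - ((n : ℝ) - 1) * m)) (hs0 : 0 ≤ s) (hts : m * lam ≤ s + 1 / 8)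
    (hts2 : 2 * (m * lam) ≤ s + 1 / 2)
    (hT : ∀ l, RR (x l) ≤ (∏ l, RR (x l)) / (C * (H : ℝ) ^ ((1 - m) * lam)))
    (hR : ∀ l, RR (x l) ≤ (H : ℝ) ^ (m * lam))
    (hq1 : 1 ≤ q₁) (hq2 : 1 ≤ q₂) (d1 : (q₁ : ℤ) ∣ x k) (d2 : (q₂ : ℤ) ∣ x k)
    (hRk : RR (x k) = (rad q₁ : ℝ) * rad q₂) (h1 : (H : ℝ) ≤ c * (q₁ : ℝ) ^ 4)
    (h2 : (H : ℝ) ≤ c * (q₂ : ℝ) ^ 4) (h12 : (H : ℝ) ≤ c * ((q₁ : ℝ) * q₂)) :
    x ∈ NE n H (C * (H : ℝ) ^ ((1 - m) * lam)) := by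
  have hHpos : (0 : ℝ) < H := by linarith
  have hC0 : 0 < C := by linarith
  have hZ0 : 0 < C * (H : ℝ) ^ ((1 - m) * lam) := mul_pos hC0 (Real.rpow_pos_of_pos hHpos _)
  by_contra hcon
  have hno : ∀ q : ℕ, 1 ≤ q → (q : ℤ) ∣ x k → C * (H : ℝ) ^ ((1 - m) * lam) < (rad q : ℝ) *
      (∏ l ∈ ({i, j, k} : Finset (Fin n))ᶜ, RR (x l)) *
        Real.sqrt (wt q (RR (x i)) * wt q (RR (x j))) := by
    intro q hq hd
    by_contra hle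
    push Not at hle
    exact hcon ⟨hx, i, j, k, q, hij, hik, hjk, hq, hd, by rw [filter3]; exact hle⟩
  have c1 := hno q₁ hq1 d1
  have c2 := hno q₂ hq2 d2
  have hR0 : 0 < ∏ l, RR (x l) := Finset.prod_pos fun l _ => RR_pos _
  have hPle := compl_le x hij hik hjk _ hT
  have hRsplit := prod_three x hij hik hjk
  have hr1 : (0 : ℝ) < rad q₁ := by exact_mod_cast rad_pos _
  have hr2 : (0 : ℝ) < rad q₂ := by exact_mod_cast rad_pos _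
  have fi := wt_mul_wt hH (RR_pos (x i)) (hR i) hq1 hq2 hc h1 h2 h12 hs0 hts hts2
  have fj := wt_mul_wt hH (RR_pos (x j)) (hR j) hq1 hq2 hc h1 h2 h12 hs0 hts hts2
  have hHs : 0 < (H : ℝ) ^ s := Real.rpow_pos_of_pos hHpos _
  have hK : 0 < 4 * c * (H : ℝ) ^ s := mul_pos (by linarith) hHs
  have key := aux1 (K := 4 * c * (H : ℝ) ^ s) (wt_pos q₁ (RR_pos (x i)))
    (wt_pos q₁ (RR_pos (x j))) (wt_pos q₂ (RR_pos (x i))) (wt_pos q₂ (RR_pos (x j)))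
    (RR_pos (x i)) (RR_pos (x j)) hK (fi.trans_eq (by ring)) (fj.trans_eq (by ring))
  have hmul := aux3 hZ0 c1 c2 hr1 hr2 key hRk hRsplit
  have k1 := core1 hZ0 hR0 hK hmul hPle
  have hN : ((n - 3 : ℕ) : ℝ) + 2 = (n : ℝ) - 1 := by
    rw [Nat.cast_sub hn]; push_cast; ring
  have k2 := core2 (N := n - 3) (m := m) (s := s) (c₂ := 4 * c) (C := C)
    (B := 4 * c * (H : ℝ) ^ s) hH hR0 hprod (by rw [hN]; exact hs) le_rfl (by linarith) hC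
  exact absurd k1 (not_lt.mpr k2)

/-- Prime power entry. -/
lemma n_pp {n H : ℕ} {x : Fin n → ℤ} {lam m c C : ℝ} {i j k : Fin n} {p e : ℕ} {a : ℤ}
    (hH : (1 : ℝ) ≤ H) (hx : x ∈ Adm n H) (hij : i ≠ j) (hik : i ≠ k) (hjk : j ≠ k)
    (hc : 1 ≤ c) (ht : m * lam ≤ 3 / 8)
    (hR : ∀ l, RR (x l) ≤ (H : ℝ) ^ (m * lam)) (hp : p.Prime) (he : 1 ≤ e)
    (hxk : x k = a * (p : ℤ) ^ e) (hRk : RR (x k) = RR a * p)
    (hq : (H : ℝ) ^ 3 ≤ c ^ 3 * ((p ^ e : ℕ) : ℝ) ^ 4)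
    (hcon : x ∉ NE n H (C * (H : ℝ) ^ ((1 - m) * lam))) (hZ0 : 0 < C * (H : ℝ) ^ ((1 - m) * lam)) :
    RR a * Real.sqrt (RR (x i) * RR (x j)) ≤
      2 * c * ((∏ l, RR (x l)) / (C * (H : ℝ) ^ ((1 - m) * lam))) := by
  have hqq : 1 ≤ p ^ e := Nat.one_le_pow _ _ hp.pos
  have c1 : C * (H : ℝ) ^ ((1 - m) * lam) < (rad (p ^ e) : ℝ) *
      (∏ l ∈ ({i, j, k} : Finset (Fin n))ᶜ, RR (x l)) *
        Real.sqrt (wt (p ^ e) (RR (x i)) * wt (p ^ e) (RR (x j))) := by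
    by_contra hle
    push Not at hle
    refine hcon ⟨hx, i, j, k, p ^ e, hij, hik, hjk, hqq, ?_, by rw [filter3]; exact hle⟩
    rw [hxk]
    push_cast
    exact Dvd.intro_left _ rfl
  rw [rad_prime_pow hp (by omega)] at c1
  have hP0 : 0 < ∏ l ∈ ({i, j, k} : Finset (Fin n))ᶜ, RR (x l) :=
    Finset.prod_pos fun l _ => RR_pos _
  have hi0 := RR_pos (x i)
  have hj0 := RR_pos (x j)
  have hp0 : (0 : ℝ) < p := by exact_mod_cast hp.pos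
  have wi := wt_le_two (q := p ^ e) hH hi0 (hR i) hqq hc hq ht
  have wj := wt_le_two (q := p ^ e) hH hj0 (hR j) hqq hc hq ht
  exact aux4 hZ0 c1 hp0 hP0 (aux2 (wt_pos _ hj0) hi0 (by linarith) wi wj)
    (Real.mul_self_sqrt (mul_pos hi0 hj0).le) (Real.sqrt_pos.mpr (mul_pos hi0 hj0))
    (RR_pos a) hRk (prod_three x hij hik hjk)

/-- A base of a very high power. -/
lemma n_high {n H : ℕ} {x : Fin n → ℤ} {lam m s c C : ℝ} {i j k : Fin n} {p : ℕ} {a : ℤ}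
    (hn : 3 ≤ n) (hH : (1 : ℝ) ≤ H) (hij : i ≠ j) (hik : i ≠ k) (hjk : j ≠ k)
    (hc : 1 ≤ c) (hC : 2 * c ≤ C)
    (hprod : ∏ l, RR (x l) ≤ (H : ℝ) ^ lam)
    (hs : s = lam * (1 - ((n : ℝ) - 1) * m))
    (hT : ∀ l, RR (x l) < (∏ l, RR (x l)) / (C * (H : ℝ) ^ ((1 - m) * lam)))
    (hp : (p : ℝ) ≤ (H : ℝ) ^ s) (hRk : RR (x k) = RR a * p)
    (hA : RR a * Real.sqrt (RR (x i) * RR (x j)) ≤
      2 * c * ((∏ l, RR (x l)) / (C * (H : ℝ) ^ ((1 - m) * lam)))) : False := by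
  have hHpos : (0 : ℝ) < H := by linarith
  have hC0 : 0 < C := by linarith
  have hZ0 : 0 < C * (H : ℝ) ^ ((1 - m) * lam) := mul_pos hC0 (Real.rpow_pos_of_pos hHpos _)
  have hR0 : 0 < ∏ l, RR (x l) := Finset.prod_pos fun l _ => RR_pos _
  have hP0 : 0 < ∏ l ∈ ({i, j, k} : Finset (Fin n))ᶜ, RR (x l) :=
    Finset.prod_pos fun l _ => RR_pos _
  have hi0 := RR_pos (x i)
  have hj0 := RR_pos (x j)
  have hμ0 := div_pos hR0 hZ0
  have hSμ : Real.sqrt (RR (x i) * RR (x j)) <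
      (∏ l, RR (x l)) / (C * (H : ℝ) ^ ((1 - m) * lam)) := by
    rw [Real.sqrt_lt' hμ0, sq]
    exact mul_lt_mul'' (hT i) (hT j) hi0.le hj0.le
  have h2 := aux5 (N := n - 3) hZ0 hR0 hp (Real.rpow_pos_of_pos hHpos _) hP0
    (show 0 < 2 * c by linarith) (Real.mul_self_sqrt (mul_pos hi0 hj0).le)
    (Real.sqrt_pos.mpr (mul_pos hi0 hj0)) hSμ (RR_pos a) hA
    (compl_le x hij hik hjk _ (fun l => (hT l).le)) hRk (prod_three x hij hik hjk)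
  have hN : ((n - 3 : ℕ) : ℝ) + 2 = (n : ℝ) - 1 := by
    rw [Nat.cast_sub hn]; push_cast; ring
  have k2 := core2 (N := n - 3) (m := m) (s := s) (c₂ := 2 * c) (C := C)
    (B := 2 * c * (H : ℝ) ^ s) hH hR0 hprod (by rw [hN]; exact hs) le_rfl (by linarith) hC
  exact absurd h2 (not_lt.mpr k2)

end Pool.Agent.H38.AE
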