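import Pool.Agent.H38.AE.TargetsN
import Pool.Agent.H38.AE.Rad

/-! The covering for `n`-tuples: inequalities. -/

set_option autoImplicit false

namespace Pool.Agent.H38.AE

lemma filter3 {n : ℕ} (i j k : Fin n) :
    Finset.univ.filter (fun l => l ≠ i ∧ l ≠ j ∧ l ≠ k) = ({i, j, k} : Finset (Fin n))ᶜ := by
  ext l; simp

lemma filter2 {n : ℕ} (i j : Fin n) :
    Finset.univ.filter (fun l => l ≠ i ∧ l ≠ j) = ({i, j} : Finset (Fin n))ᶜ := by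
  ext l; simp

lemma filter1 {n : ℕ} (k : Fin n) :
    Finset.univ.filter (fun l => l ≠ k) = ({k} : Finset (Fin n))ᶜ := by
  ext l; simp

lemma prod_split {n : ℕ} (r : Fin n → ℝ) (S : Finset (Fin n)) :
    ∏ l, r l = (∏ l ∈ S, r l) * ∏ l ∈ Sᶜ, r l := (Finset.prod_mul_prod_compl S r).symm

lemma prod_compl_le {n : ℕ} (r : Fin n → ℝ) (S : Finset (Fin n)) (μ : ℝ) (h0 : ∀ l, 0 ≤ r l)
    (h : ∀ l, r l ≤ μ) : ∏ l ∈ Sᶜ, r l ≤ μ ^ (n - S.card) := by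
  calc ∏ l ∈ Sᶜ, r l ≤ ∏ _l ∈ Sᶜ, μ := Finset.prod_le_prod (fun l _ => h0 l) (fun l _ => h l)
    _ = μ ^ (n - S.card) := by
        rw [Finset.prod_const, Finset.card_compl, Fintype.card_fin]

/-- `Z² < B R P'` and `P' ≤ (R / Z)^N`. -/
lemma core1 {Z R B P : ℝ} {N : ℕ} (hZ : 0 < Z) (hR : 0 < R) (hB : 0 < B)
    (h : Z ^ 2 < B * R * P) (hP : P ≤ (R / Z) ^ N) : Z ^ (N + 2) < B * R ^ (N + 1) := by
  have hZN : 0 < Z ^ N := pow_pos hZ N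
  calc Z ^ (N + 2) = Z ^ 2 * Z ^ N := by ring
    _ < B * R * P * Z ^ N := by gcongr
    _ ≤ B * R * (R / Z) ^ N * Z ^ N := by gcongr
    _ = B * R ^ (N + 1) := by
        rw [div_pow]; field_simp; ring

lemma core2 {H lam m s c₂ C B R : ℝ} {N : ℕ} (hH : 1 ≤ H)
    (hR0 : 0 < R) (hR : R ≤ H ^ lam) (hs : s = lam * (1 - ((N : ℝ) + 2) * m))
    (hB : B ≤ c₂ * H ^ s) (hC : 1 ≤ C) (hC2 : c₂ ≤ C) :
    B * R ^ (N + 1) ≤ (C * H ^ ((1 - m) * lam)) ^ (N + 2) := by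
  have hH0 : 0 < H := lt_of_lt_of_le one_pos hH
  have hCN : C ≤ C ^ (N + 2) := le_self_pow₀ hC (by omega)
  have hHs : 0 < H ^ s := Real.rpow_pos_of_pos hH0 _
  have e1 : H ^ s * (H ^ lam) ^ (N + 1) = (H ^ ((1 - m) * lam)) ^ (N + 2) := by
    rw [← Real.rpow_natCast, ← Real.rpow_natCast, ← Real.rpow_mul hH0.le, ← Real.rpow_mul hH0.le,
      ← Real.rpow_add hH0]
    congr 1
    rw [hs]
    push_cast
    ring
  calc B * R ^ (N + 1) ≤ (c₂ * H ^ s) * R ^ (N + 1) := by gcongr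
    _ ≤ (C ^ (N + 2) * H ^ s) * (H ^ lam) ^ (N + 1) := by
        gcongr
        exact hC2.trans hCN
    _ = C ^ (N + 2) * (H ^ s * (H ^ lam) ^ (N + 1)) := by ring
    _ = (C * H ^ ((1 - m) * lam)) ^ (N + 2) := by rw [e1, mul_pow]

/-- The case of two nearly powers. -/
lemma core3 {H lam m κ c Z R X Y W P C : ℝ} {n : ℕ} (hn : 4 ≤ n) (hH : 1 ≤ H) (hR0 : 0 < R)
    (hR : R ≤ H ^ lam) (hm : 0 < m) (hm1 : m ≤ 1) (hκ : κ < 1)
    (hrel : m * ((n : ℝ) - 2 + 1 / (1 - κ)) ≤ 1) (hc : 1 ≤ c)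
    (hZ : Z = C * H ^ ((1 - m) * lam)) (hC : 4 * c ^ 2 ≤ C)
    (hY0 : 0 < Y) (hW0 : 0 < W) (hP0 : 0 < P)
    (hμ : 1 ≤ R / Z) (hX : X ≤ 2 * c * (R / Z)) (hY : Y ≤ 2 * c * (R / Z))
    (hW : W ^ (1 - κ) < R / Z) (hP : P ≤ (R / Z) ^ (n - 4)) (hprod : R = X * Y * W * P) :
    False := by
  have hH0 : 0 < H := lt_of_lt_of_le one_pos hH
  have hHp : 0 < H ^ ((1 - m) * lam) := Real.rpow_pos_of_pos hH0 _
  have hC1 : 1 ≤ C := by nlinarith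
  have hZ0 : 0 < Z := by rw [hZ]; positivity
  set μ := R / Z with hμd
  have hμ0 : 0 < μ := by linarith
  have h1κ : 0 < 1 - κ := by linarith
  have hW1 : W < μ ^ (1 / (1 - κ)) := by
    have : W = (W ^ (1 - κ)) ^ (1 / (1 - κ)) := by
      rw [← Real.rpow_mul hW0.le, mul_one_div_cancel h1κ.ne', Real.rpow_one]
    rw [this]
    exact Real.rpow_lt_rpow (by positivity) hW (by positivity)
  have h4 : R < 4 * c ^ 2 * μ ^ ((n : ℝ) - 2 + 1 / (1 - κ)) := by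
    calc R = X * Y * W * P := hprod
      _ < (2 * c * μ) * (2 * c * μ) * μ ^ (1 / (1 - κ)) * μ ^ (n - 4) := by
          have a1 : X * Y ≤ (2 * c * μ) * (2 * c * μ) := mul_le_mul hX hY hY0.le (by positivity)
          have a2 : X * Y * W < (2 * c * μ) * (2 * c * μ) * μ ^ (1 / (1 - κ)) :=
            mul_lt_mul' a1 hW1 hW0.le (by positivity)
          exact mul_lt_mul a2 hP hP0 (by positivity)
      _ = 4 * c ^ 2 * (μ ^ (2 : ℝ) * μ ^ (1 / (1 - κ)) * μ ^ ((n - 4 : ℕ) : ℝ)) := by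
          rw [Real.rpow_natCast]
          have : μ ^ (2 : ℝ) = μ ^ 2 := by norm_cast
          rw [this]; ring
      _ = 4 * c ^ 2 * μ ^ ((n : ℝ) - 2 + 1 / (1 - κ)) := by
          rw [← Real.rpow_add hμ0, ← Real.rpow_add hμ0]
          congr 2
          rw [Nat.cast_sub hn]
          push_cast
          ring
  have h5 : R ^ m < 4 * c ^ 2 * μ := by
    calc R ^ m < (4 * c ^ 2 * μ ^ ((n : ℝ) - 2 + 1 / (1 - κ))) ^ m :=
          Real.rpow_lt_rpow hR0.le h4 hm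
      _ = (4 * c ^ 2) ^ m * μ ^ (((n : ℝ) - 2 + 1 / (1 - κ)) * m) := by
          rw [Real.mul_rpow (by positivity) (by positivity), ← Real.rpow_mul hμ0.le]
      _ ≤ (4 * c ^ 2) ^ (1 : ℝ) * μ ^ (1 : ℝ) := by
          have a1 : (1 : ℝ) ≤ 4 * c ^ 2 := by nlinarith
          have a2 := Real.rpow_le_rpow_of_exponent_le a1 hm1
          have a3 := Real.rpow_le_rpow_of_exponent_le hμ
            (show ((n : ℝ) - 2 + 1 / (1 - κ)) * m ≤ 1 by linarith [hrel, mul_comm m ((n : ℝ) - 2 + 1 / (1 - κ))])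
          exact mul_le_mul a2 a3 (by positivity) (by positivity)
      _ = 4 * c ^ 2 * μ := by rw [Real.rpow_one, Real.rpow_one]
  have h6 : R ^ m * Z < 4 * c ^ 2 * R := by
    have : R ^ m * Z < 4 * c ^ 2 * μ * Z := by gcongr
    have h7 : 4 * c ^ 2 * μ * Z = 4 * c ^ 2 * R := by
      rw [hμd]; field_simp
    linarith
  have h7 : Z < 4 * c ^ 2 * R ^ (1 - m) := by
    have e : R = R ^ m * R ^ (1 - m) := by
      rw [← Real.rpow_add hR0]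
      have : m + (1 - m) = 1 := by ring
      rw [this, Real.rpow_one]
    have hRm : 0 < R ^ m := Real.rpow_pos_of_pos hR0 _
    have h8 : R ^ m * Z < R ^ m * (4 * c ^ 2 * R ^ (1 - m)) := by
      calc R ^ m * Z < 4 * c ^ 2 * R := h6
        _ = 4 * c ^ 2 * (R ^ m * R ^ (1 - m)) := by rw [← e]
        _ = R ^ m * (4 * c ^ 2 * R ^ (1 - m)) := by ring
    exact lt_of_mul_lt_mul_left h8 hRm.le
  have h8 : R ^ (1 - m) ≤ H ^ ((1 - m) * lam) := by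
    calc R ^ (1 - m) ≤ (H ^ lam) ^ (1 - m) := Real.rpow_le_rpow hR0.le hR (by linarith)
      _ = H ^ ((1 - m) * lam) := by rw [← Real.rpow_mul hH0.le]; congr 1; ring
  have : 4 * c ^ 2 * R ^ (1 - m) ≤ C * H ^ ((1 - m) * lam) := by gcongr
  rw [← hZ] at this
  linarith

/-- Weights of two factors of a large number. -/
lemma wt_mul_wt {H R t s c : ℝ} {q₁ q₂ : ℕ} (hH : 1 ≤ H) (hR : 0 < R) (hRle : R ≤ H ^ t)
    (hq1 : 1 ≤ q₁) (hq2 : 1 ≤ q₂) (hc : 1 ≤ c)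
    (h1 : H ≤ c * (q₁ : ℝ) ^ 4) (h2 : H ≤ c * (q₂ : ℝ) ^ 4) (h12 : H ≤ c * ((q₁ : ℝ) * q₂))
    (hs : 0 ≤ s) (hts : t ≤ s + 1 / 8) (hts2 : 2 * t ≤ s + 1 / 2) :
    wt q₁ R * wt q₂ R ≤ (4 * c) * R ^ 2 * H ^ s := by
  have hH0 : 0 < H := lt_of_lt_of_le one_pos hH
  set P := H ^ s with hP
  have hP1 : 1 ≤ P := Real.one_le_rpow hH hs
  have hq1' : (0 : ℝ) < q₁ := by exact_mod_cast hq1
  have hq2' : (0 : ℝ) < q₂ := by exact_mod_cast hq2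
  set s₁ := Real.sqrt q₁ with hs1d
  set s₂ := Real.sqrt q₂ with hs2d
  have hs1 : 0 < s₁ := Real.sqrt_pos.mpr hq1'
  have hs2 : 0 < s₂ := Real.sqrt_pos.mpr hq2'
  have e8 : ∀ q : ℝ, 0 < q → Real.sqrt q ^ 8 = q ^ 4 := by
    intro q hq
    rw [show (8 : ℕ) = 2 * 4 by norm_num, pow_mul, Real.sq_sqrt hq.le]
  have e12 : (s₁ * s₂) ^ 2 = (q₁ : ℝ) * q₂ := by
    rw [mul_pow, Real.sq_sqrt hq1'.le, Real.sq_sqrt hq2'.le]
  have key8 : ∀ q : ℕ, 1 ≤ q → H ≤ c * (q : ℝ) ^ 4 → H ^ ((1 : ℝ) / 8) ≤ c * Real.sqrt q := by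
    intro q hq h
    have hq' : (0 : ℝ) < q := by exact_mod_cast hq
    have hc8 : c ≤ c ^ 8 := le_self_pow₀ hc (by norm_num)
    have : H ≤ (c * Real.sqrt q) ^ (8 : ℕ) := by
      rw [mul_pow, e8 _ hq']
      calc H ≤ c * (q : ℝ) ^ 4 := h
        _ ≤ c ^ 8 * (q : ℝ) ^ 4 := by gcongr
    calc H ^ ((1 : ℝ) / 8) ≤ ((c * Real.sqrt q) ^ (8 : ℕ)) ^ ((1 : ℝ) / 8) :=
          Real.rpow_le_rpow hH0.le this (by norm_num)
      _ = c * Real.sqrt q := by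
          rw [← Real.rpow_natCast, ← Real.rpow_mul (by positivity)]
          norm_num
  have key2 : H ^ ((1 : ℝ) / 2) ≤ c * (s₁ * s₂) := by
    have hc2 : c ≤ c ^ 2 := le_self_pow₀ hc (by norm_num)
    have : H ≤ (c * (s₁ * s₂)) ^ (2 : ℕ) := by
      rw [mul_pow, e12]
      calc H ≤ c * ((q₁ : ℝ) * q₂) := h12
        _ ≤ c ^ 2 * ((q₁ : ℝ) * q₂) := by gcongr
    calc H ^ ((1 : ℝ) / 2) ≤ ((c * (s₁ * s₂)) ^ (2 : ℕ)) ^ ((1 : ℝ) / 2) :=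
          Real.rpow_le_rpow hH0.le this (by norm_num)
      _ = c * (s₁ * s₂) := by
          rw [← Real.rpow_natCast, ← Real.rpow_mul (by positivity)]
          norm_num
  have hA : ∀ q : ℕ, 1 ≤ q → H ≤ c * (q : ℝ) ^ 4 → R / Real.sqrt q ≤ c * P := by
    intro q hq h
    have hq' : (0 : ℝ) < q := by exact_mod_cast hq
    rw [div_le_iff₀ (Real.sqrt_pos.mpr hq')]
    calc R ≤ H ^ t := hRle
      _ ≤ H ^ (s + 1 / 8) := Real.rpow_le_rpow_of_exponent_le hH hts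
      _ = P * H ^ ((1 : ℝ) / 8) := by rw [Real.rpow_add hH0, hP]
      _ ≤ P * (c * Real.sqrt q) := by gcongr; exact key8 q hq h
      _ = c * P * Real.sqrt q := by ring
  have hB : R ^ 2 / (s₁ * s₂) ≤ c * P := by
    rw [div_le_iff₀ (by positivity)]
    calc R ^ 2 ≤ (H ^ t) ^ 2 := by gcongr
      _ = H ^ (2 * t) := by
          rw [← Real.rpow_natCast, ← Real.rpow_mul hH0.le]; congr 1; push_cast; ring
      _ ≤ H ^ (s + 1 / 2) := Real.rpow_le_rpow_of_exponent_le hH hts2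
      _ = P * H ^ ((1 : ℝ) / 2) := by rw [Real.rpow_add hH0, hP]
      _ ≤ P * (c * (s₁ * s₂)) := by gcongr
      _ = c * P * (s₁ * s₂) := by ring
  have e : wt q₁ R * wt q₂ R = R ^ 2 * (1 + R / s₁ + R / s₂ + R ^ 2 / (s₁ * s₂)) := by
    unfold wt
    rw [← hs1d, ← hs2d]
    field_simp
    ring
  rw [e]
  have h3 := hA q₁ hq1 h1
  have h4 := hA q₂ hq2 h2
  have h5 : 1 ≤ c * P := by nlinarith
  have : 1 + R / s₁ + R / s₂ + R ^ 2 / (s₁ * s₂) ≤ 4 * c * P := by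
    rw [← hs1d] at h3; rw [← hs2d] at h4; linarith
  calc R ^ 2 * (1 + R / s₁ + R / s₂ + R ^ 2 / (s₁ * s₂)) ≤ R ^ 2 * (4 * c * P) := by gcongr
    _ = 4 * c * R ^ 2 * P := by ring

/-- The weight of a large modulus. -/
lemma wt_le_two {H t R c : ℝ} {q : ℕ} (hH : 1 ≤ H) (hR : 0 < R)
    (hR' : R ≤ H ^ t) (hq1 : 1 ≤ q) (hc : 1 ≤ c) (hq : H ^ 3 ≤ c ^ 3 * (q : ℝ) ^ 4)
    (ht : t ≤ 3 / 8) : wt q R ≤ 2 * c * R := by
  have hH0 : 0 < H := lt_of_lt_of_le one_pos hH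
  have hq' : (0 : ℝ) < q := by exact_mod_cast hq1
  have hs : 0 < Real.sqrt q := Real.sqrt_pos.mpr hq'
  have h1 : H ^ ((3 : ℝ) / 8) ≤ c * Real.sqrt q := by
    have e8 : Real.sqrt q ^ 8 = (q : ℝ) ^ 4 := by
      rw [show (8 : ℕ) = 2 * 4 by norm_num, pow_mul, Real.sq_sqrt hq'.le]
    have hc8 : c ^ 3 ≤ c ^ 8 := pow_le_pow_right₀ hc (by norm_num)
    have : H ^ (3 : ℕ) ≤ (c * Real.sqrt q) ^ (8 : ℕ) := by
      rw [mul_pow, e8]
      calc H ^ 3 ≤ c ^ 3 * (q : ℝ) ^ 4 := hq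
        _ ≤ c ^ 8 * (q : ℝ) ^ 4 := by gcongr
    calc H ^ ((3 : ℝ) / 8) = (H ^ (3 : ℕ)) ^ ((1 : ℝ) / 8) := by
          rw [← Real.rpow_natCast, ← Real.rpow_mul hH0.le]; norm_num
      _ ≤ ((c * Real.sqrt q) ^ (8 : ℕ)) ^ ((1 : ℝ) / 8) :=
          Real.rpow_le_rpow (by positivity) this (by norm_num)
      _ = c * Real.sqrt q := by
          rw [← Real.rpow_natCast, ← Real.rpow_mul (by positivity)]
          norm_num
  have h2 : R ≤ c * Real.sqrt q := by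
    refine hR'.trans (le_trans ?_ h1)
    exact Real.rpow_le_rpow_of_exponent_le hH ht
  unfold wt
  have h3 : R ^ 2 / Real.sqrt q ≤ c * R := by
    rw [div_le_iff₀ hs]
    nlinarith
  nlinarith

/-- Data of a large entry. -/
lemma entry_casesN (hI : T_I) {H c : ℝ} {x : ℤ} (hH : 0 ≤ H) (hc : 1 ≤ c) (hx : x ≠ 0)
    (hHx : H ≤ c * |(x : ℝ)|) :
    (∃ (a : ℤ) (p e : ℕ), p.Prime ∧ 1 ≤ e ∧ a ≠ 0 ∧ x = a * (p : ℤ) ^ e ∧ RR x = RR a * p ∧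
      H ^ 3 ≤ c ^ 3 * ((p ^ e : ℕ) : ℝ) ^ 4) ∨
    (∃ q₁ q₂ : ℕ, 1 ≤ q₁ ∧ 1 ≤ q₂ ∧ (q₁ : ℤ) ∣ x ∧ (q₂ : ℤ) ∣ x ∧
      RR x = (rad q₁ : ℝ) * rad q₂ ∧ H ≤ c * (q₁ : ℝ) ^ 4 ∧ H ≤ c * (q₂ : ℝ) ^ 4 ∧
      H ≤ c * ((q₁ : ℝ) * q₂)) := by
  have hn : 1 ≤ x.natAbs := Int.natAbs_pos.mpr hx
  have habs : |(x : ℝ)| = (x.natAbs : ℝ) := by
    rw [← Int.cast_abs, ← Int.natCast_natAbs, Int.cast_natCast]
  rw [habs] at hHx
  have hc0 : 0 < c := by linarith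
  rcases hI x.natAbs hn with ⟨p, hp, hpx, hle⟩ | ⟨q₁, q₂, hq, hcop, h1, h2⟩
  · left
    set e := x.natAbs.factorization p with he
    have he1 : 1 ≤ e := by
      rw [he]
      exact (hp.dvd_iff_one_le_factorization (by omega)).mp hpx
    have hdvd : p ^ e ∣ x.natAbs := Nat.ordProj_dvd _ _
    obtain ⟨a, ha⟩ : ((p : ℤ) ^ e) ∣ x := by
      rw [← Int.natCast_pow]
      exact Int.natCast_dvd.mpr hdvd
    have ha0 : a ≠ 0 := by
      rintro rfl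
      apply hx
      rw [ha, mul_zero]
    have hnat : x.natAbs = p ^ e * a.natAbs := by
      rw [ha, Int.natAbs_mul, Int.natAbs_pow, Int.natAbs_natCast]
    have hcop : Nat.Coprime (p ^ e) a.natAbs := by
      have h3 : a.natAbs = x.natAbs / p ^ e := by
        rw [hnat, Nat.mul_div_cancel_left _ (pow_pos hp.pos e)]
      rw [h3]
      exact (Nat.coprime_ordCompl hp (by omega)).pow_left e
    refine ⟨a, p, e, hp, he1, ha0, ?_, ?_, ?_⟩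
    · rw [mul_comm]; exact ha
    · unfold RR
      rw [hnat, rad_mul hcop, rad_prime_pow hp (by omega)]
      push_cast
      ring
    · have h4 : ((x.natAbs : ℝ)) ^ 3 ≤ ((p ^ e : ℕ) : ℝ) ^ 4 := by exact_mod_cast hle
      calc H ^ 3 ≤ (c * (x.natAbs : ℝ)) ^ 3 := by gcongr
        _ = c ^ 3 * (x.natAbs : ℝ) ^ 3 := by ring
        _ ≤ c ^ 3 * ((p ^ e : ℕ) : ℝ) ^ 4 := by gcongr
  · right
    have hq1 : 1 ≤ q₁ := by
      rcases Nat.eq_zero_or_pos q₁ with h | h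
      · rw [h] at hq; omega
      · exact h
    have hq2 : 1 ≤ q₂ := by
      rcases Nat.eq_zero_or_pos q₂ with h | h
      · rw [h] at hq; omega
      · exact h
    refine ⟨q₁, q₂, hq1, hq2, ?_, ?_, ?_, ?_, ?_, ?_⟩
    · exact Int.natCast_dvd.mpr ⟨q₂, hq.symm⟩
    · exact Int.natCast_dvd.mpr ⟨q₁, by rw [mul_comm]; exact hq.symm⟩
    · unfold RR
      rw [← hq, rad_mul hcop]
      push_cast
      ring
    · have : (x.natAbs : ℝ) ≤ (q₁ : ℝ) ^ 4 := by exact_mod_cast h1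
      calc H ≤ c * (x.natAbs : ℝ) := hHx
        _ ≤ c * (q₁ : ℝ) ^ 4 := by gcongr
    · have : (x.natAbs : ℝ) ≤ (q₂ : ℝ) ^ 4 := by exact_mod_cast h2
      calc H ≤ c * (x.natAbs : ℝ) := hHx
        _ ≤ c * (q₂ : ℝ) ^ 4 := by gcongr
    · have : (x.natAbs : ℝ) = (q₁ : ℝ) * q₂ := by rw [← hq]; push_cast; ring
      rw [← this]; exact hHx

end Pool.Agent.H38.AE
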