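import Pool.Agent.H38.AE.N4

/-! The covering for `n`-tuples, main argument. -/

set_option autoImplicit false

namespace Pool.Agent.H38.AE

/-- Two large entries. -/
lemma two_large {n H : ℕ} {x : Fin n → ℤ} (hn : 4 ≤ n) (hx : x ∈ Adm n H)
    (hbig : ∃ i, (H : ℤ) < 2 * |x i|) :
    ∃ k₁ k₂ : Fin n, k₁ ≠ k₂ ∧ (H : ℝ) ≤ 2 * (n : ℝ) * |(x k₁ : ℝ)| ∧
      (H : ℝ) ≤ 2 * (n : ℝ) * |(x k₂ : ℝ)| := by
  obtain ⟨k, hk⟩ := hbig
  have hn' : (4 : ℝ) ≤ n := by exact_mod_cast hn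
  have hkR : (H : ℝ) < 2 * |(x k : ℝ)| := by exact_mod_cast hk
  have habs : 0 ≤ |(x k : ℝ)| := abs_nonneg _
  have hsum : ∑ l, (x l : ℝ) = 0 := by
    have := hx.2.2.1
    exact_mod_cast this
  have hcard : ((Finset.univ.erase k).card : ℝ) = (n : ℝ) - 1 := by
    rw [Finset.card_erase_of_mem (Finset.mem_univ k), Finset.card_univ, Fintype.card_fin,
      Nat.cast_sub (by omega)]
    simp
  have hne : (Finset.univ.erase k).Nonempty := by
    rw [← Finset.card_pos]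
    have : (0 : ℝ) < ((Finset.univ.erase k).card : ℝ) := by rw [hcard]; linarith
    exact_mod_cast this
  obtain ⟨l, hl, hle⟩ : ∃ l ∈ Finset.univ.erase k, |(x k : ℝ)| / ((n : ℝ) - 1) ≤ |(x l : ℝ)| := by
    by_contra hcon
    push Not at hcon
    have h1 : ∑ l ∈ Finset.univ.erase k, |(x l : ℝ)| <
        ∑ _l ∈ Finset.univ.erase k, |(x k : ℝ)| / ((n : ℝ) - 1) :=
      Finset.sum_lt_sum_of_nonempty hne hcon
    rw [Finset.sum_const, nsmul_eq_mul, hcard, mul_div_cancel₀ _ (by linarith)] at h1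
    have h2 : (x k : ℝ) = -∑ l ∈ Finset.univ.erase k, (x l : ℝ) := by
      have := Finset.add_sum_erase Finset.univ (fun l => (x l : ℝ)) (Finset.mem_univ k)
      linarith
    have h3 : |(x k : ℝ)| ≤ ∑ l ∈ Finset.univ.erase k, |(x l : ℝ)| := by
      calc |(x k : ℝ)| = |∑ l ∈ Finset.univ.erase k, (x l : ℝ)| := by rw [h2, abs_neg]
        _ ≤ _ := Finset.abs_sum_le_sum_abs _ _
    linarith
  refine ⟨k, l, (Finset.ne_of_mem_erase hl).symm, ?_, ?_⟩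
  · have := mul_le_mul_of_nonneg_right (show (2 : ℝ) ≤ 2 * n by linarith) habs
    linarith
  · rw [div_le_iff₀ (by linarith)] at hle
    have : 0 ≤ |(x l : ℝ)| := abs_nonneg _
    linarith

lemma pow_size {H : ℝ} {w a : ℤ} {p e : ℕ} (hw : |(w : ℝ)| ≤ H) (ha : a ≠ 0)
    (hwc : w = a * (p : ℤ) ^ e) : (p : ℝ) ^ e ≤ H := by
  have h1 : |(w : ℝ)| = |(a : ℝ)| * (p : ℝ) ^ e := by
    rw [hwc]; push_cast
    rw [abs_mul, abs_of_nonneg (by positivity : (0 : ℝ) ≤ (p : ℝ) ^ e)]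
  have h2 : (1 : ℝ) ≤ |(a : ℝ)| := by
    have : (1 : ℤ) ≤ |a| := Int.one_le_abs ha
    exact_mod_cast this
  have h3 : (0 : ℝ) ≤ (p : ℝ) ^ e := by positivity
  calc (p : ℝ) ^ e = 1 * (p : ℝ) ^ e := (one_mul _).symm
    _ ≤ |(a : ℝ)| * (p : ℝ) ^ e := by gcongr
    _ = |(w : ℝ)| := h1.symm
    _ ≤ H := hw

/-- The base of a high prime power is small. -/
lemma base_smallN {H s : ℝ} {p e K : ℕ} (hH : 1 ≤ H) (hK : 1 ≤ K) (he : K < e)
    (hpe : (p : ℝ) ^ e ≤ H) (hKc : 1 / (K : ℝ) ≤ s) :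
    (p : ℝ) ≤ H ^ s := by
  have he0 : (0 : ℝ) < e := by exact_mod_cast (by omega : 0 < e)
  have hK0 : (0 : ℝ) < K := by exact_mod_cast (by omega : 0 < K)
  calc (p : ℝ) = ((p : ℝ) ^ e) ^ ((1 : ℝ) / e) := by
        rw [← Real.rpow_natCast, ← Real.rpow_mul (by positivity), mul_one_div_cancel he0.ne',
          Real.rpow_one]
    _ ≤ H ^ ((1 : ℝ) / e) := Real.rpow_le_rpow (by positivity) hpe (by positivity)
    _ ≤ H ^ ((1 : ℝ) / K) := by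
        apply Real.rpow_le_rpow_of_exponent_le hH
        apply one_div_le_one_div_of_le hK0
        exact_mod_cast he.le
    _ ≤ H ^ s := Real.rpow_le_rpow_of_exponent_le hH hKc

/-- The exponent of a large prime power with a small base is large. -/
lemma exp_largeN {H t c R A : ℝ} {p e D : ℕ} (hH : 1 ≤ H) (hp : p.Prime) (hR : R ≤ H ^ t)
    (hRA : R = A * p) (hA : 1 ≤ A) (hq : H ^ 3 ≤ c ^ 3 * ((p ^ e : ℕ) : ℝ) ^ 4) (hc : 1 ≤ c)
    (hH0 : c ^ 3 < H ^ (3 - 4 * ((D : ℝ) * t))) : D < e := by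
  have hHpos : 0 < H := by linarith
  by_contra hg
  push Not at hg
  have hp0 : (0 : ℝ) ≤ p := by positivity
  have h1 : (p : ℝ) ≤ H ^ t := by nlinarith
  have hs1 : (1 : ℝ) ≤ p := by exact_mod_cast hp.one_lt.le
  have h2 : ((p ^ e : ℕ) : ℝ) ^ 4 ≤ H ^ (4 * ((D : ℝ) * t)) := by
    push_cast
    calc ((p : ℝ) ^ e) ^ 4 ≤ ((p : ℝ) ^ D) ^ 4 := by gcongr
      _ = (p : ℝ) ^ (D * 4) := by rw [← pow_mul]
      _ ≤ (H ^ t) ^ (D * 4) := by gcongr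
      _ = H ^ (4 * ((D : ℝ) * t)) := by
          rw [← Real.rpow_natCast, ← Real.rpow_mul hHpos.le]
          congr 1; push_cast; ring
  have h3 : H ^ (3 - 4 * ((D : ℝ) * t)) ≤ c ^ 3 := by
    rw [Real.rpow_sub hHpos, div_le_iff₀ (Real.rpow_pos_of_pos hHpos _)]
    calc H ^ (3 : ℝ) = H ^ 3 := by norm_cast
      _ ≤ c ^ 3 * ((p ^ e : ℕ) : ℝ) ^ 4 := hq
      _ ≤ c ^ 3 * H ^ (4 * ((D : ℝ) * t)) := by gcongr
  linarith

lemma aux6 {A B p r P κ Z R : ℝ} (hp : 0 < p) (hr : 0 < r) (hZ : 0 < Z)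
    (h : Z < A * B * P * (p * r) ^ κ) (hR : R = (A * p) * (B * r) * P) :
    (p * r) ^ (1 - κ) < R / Z := by
  have hW : 0 < p * r := mul_pos hp hr
  rw [lt_div_iff₀ hZ]
  have hWκ : 0 < (p * r) ^ (1 - κ) := Real.rpow_pos_of_pos hW _
  calc (p * r) ^ (1 - κ) * Z < (p * r) ^ (1 - κ) * (A * B * P * (p * r) ^ κ) := by gcongr
    _ = A * B * P * ((p * r) ^ (1 - κ) * (p * r) ^ κ) := by ring
    _ = A * B * P * (p * r) := by
        rw [← Real.rpow_add hW]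
        have : 1 - κ + κ = 1 := by ring
        rw [this, Real.rpow_one]
    _ = R := by rw [hR]; ring

lemma prod_two {n : ℕ} (x : Fin n → ℤ) {i j : Fin n} (hij : i ≠ j) :
    ∏ l, RR (x l) = RR (x i) * RR (x j) * ∏ l ∈ ({i, j} : Finset (Fin n))ᶜ, RR (x l) := by
  rw [prod_split _ {i, j}, Finset.prod_pair hij]

lemma prod_four {n : ℕ} (x : Fin n → ℤ) {i j k l : Fin n} (hij : i ≠ j) (hik : i ≠ k)
    (hil : i ≠ l) (hjk : j ≠ k) (hjl : j ≠ l) (hkl : k ≠ l) :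
    ∏ t, RR (x t) = RR (x i) * RR (x j) * (RR (x k) * RR (x l)) *
      ∏ t ∈ ({i, j, k, l} : Finset (Fin n))ᶜ, RR (x t) := by
  rw [prod_split _ {i, j, k, l}]
  congr 1
  rw [Finset.prod_insert (by simp [hij, hik, hil]), Finset.prod_insert (by simp [hjk, hjl]),
    Finset.prod_pair hkl]
  ring

theorem pf_N4 (hI : T_I) : T_N4 := by
  intro n D lam m κ hn hl hl1 hκ0 hκ1 hm hrel hcond hD
  have hn' : (4 : ℝ) ≤ n := by exact_mod_cast hn
  have h1κ : 0 < 1 - κ := by linarith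
  have hinv : 1 < 1 / (1 - κ) := by rw [lt_div_iff₀ h1κ]; linarith
  have hmn : ((n : ℝ) - 1) * m < 1 := by
    have := mul_lt_mul_of_pos_left (show (n : ℝ) - 1 < (n : ℝ) - 2 + 1 / (1 - κ) by linarith) hm
    linarith
  have hm3 : m < 1 / 3 := by
    have := mul_le_mul_of_nonneg_right (show (3 : ℝ) ≤ (n : ℝ) - 1 by linarith) hm.le
    linarith
  obtain ⟨s, hs⟩ : ∃ s, s = lam * (1 - ((n : ℝ) - 1) * m) := ⟨_, rfl⟩
  have hs0 : 0 < s := by rw [hs]; exact mul_pos hl (by linarith)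
  have hml : m * lam ≤ 3 / 8 := by
    have := mul_le_mul_of_nonneg_left hl1 hm.le
    linarith
  have hts : m * lam ≤ s + 1 / 8 := by
    have : s = lam - ((n : ℝ) * m * lam - m * lam) := by rw [hs]; ring
    linarith
  have hts2 : 2 * (m * lam) ≤ s + 1 / 2 := by linarith
  obtain ⟨c, hc⟩ : ∃ c : ℝ, c = 2 * (n : ℝ) := ⟨_, rfl⟩
  have hc1 : 1 ≤ c := by rw [hc]; linarith
  obtain ⟨δ, hδ⟩ : ∃ δ, δ = 3 - 4 * ((D : ℝ) * (m * lam)) := ⟨_, rfl⟩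
  have hδ0 : 0 < δ := by rw [hδ]; linarith
  obtain ⟨K, hK⟩ := exists_nat_ge (1 / s + 1)
  obtain ⟨H₀, hH₀⟩ := exists_nat_gt ((c ^ 3) ^ (1 / δ))
  have hK1 : (1 : ℝ) ≤ K := by
    have : 0 < 1 / s := by positivity
    linarith
  have hK1' : 1 ≤ K := by exact_mod_cast hK1
  have hKc : 1 / (K : ℝ) ≤ s := by
    rw [div_le_iff₀ (by linarith)]
    have h1 : 1 / s ≤ K := by linarith
    rw [div_le_iff₀ hs0] at h1
    linarith
  obtain ⟨C, hC⟩ : ∃ C : ℝ, C = 4 * c ^ 2 + H₀ := ⟨_, rfl⟩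
  have hH₀' : (0 : ℝ) ≤ H₀ := by positivity
  have hC4 : 4 * c ^ 2 ≤ C := by rw [hC]; linarith
  have hC4' : 4 * c ≤ C := by
    have : c ≤ c ^ 2 := le_self_pow₀ hc1 two_ne_zero
    linarith
  have hC2 : 2 * c ≤ C := by linarith
  have hC1 : 1 ≤ C := by linarith
  refine ⟨C, K, by linarith, ?_⟩
  intro H x hH hx hbig hprod
  have hH1 : (1 : ℝ) ≤ H := by exact_mod_cast hH
  have hHpos : (0 : ℝ) < H := by linarith
  have hHp1 : 1 ≤ (H : ℝ) ^ ((1 - m) * lam) :=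
    Real.one_le_rpow hH1 (mul_nonneg (by linarith) hl.le)
  have hZ0 : 0 < C * (H : ℝ) ^ ((1 - m) * lam) := mul_pos (by linarith) (by linarith)
  by_contra hcon
  have hNT : x ∉ NT n H (C * (H : ℝ) ^ ((1 - m) * lam)) := fun h => hcon (Or.inl (Or.inl h))
  have hNE : x ∉ NE n H (C * (H : ℝ) ^ ((1 - m) * lam)) := fun h => hcon (Or.inl (Or.inr h))
  have hNJ : x ∉ NJ n H (C * (H : ℝ) ^ ((1 - m) * lam)) κ D K := fun h => hcon (Or.inr h)
  have hR0 : 0 < ∏ l, RR (x l) := Finset.prod_pos fun l _ => RR_pos _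
  have hTc : ∀ k : Fin n, C * (H : ℝ) ^ ((1 - m) * lam) <
      ∏ l ∈ ({k} : Finset (Fin n))ᶜ, RR (x l) := by
    intro k
    by_contra hle
    push Not at hle
    exact hNT ⟨hx, k, by rw [filter1]; exact hle⟩
  have hsplit1 : ∀ k : Fin n, ∏ l, RR (x l) =
      RR (x k) * ∏ l ∈ ({k} : Finset (Fin n))ᶜ, RR (x l) := by
    intro k
    rw [prod_split _ {k}, Finset.prod_singleton]
  obtain ⟨k₁, k₂, hk12, hk1, hk2⟩ := two_large hn hx hbig
  rw [← hc] at hk1 hk2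
  -- small heights
  have hlarge : H₀ ≤ H := by
    by_contra hsm
    push Not at hsm
    have h1 := hTc k₁
    have h2 := hsplit1 k₁
    have h3 := one_le_RR (x k₁)
    have h4 : 0 < ∏ l ∈ ({k₁} : Finset (Fin n))ᶜ, RR (x l) :=
      Finset.prod_pos fun l _ => RR_pos _
    have h5 : (H : ℝ) ^ lam ≤ H := by
      calc (H : ℝ) ^ lam ≤ (H : ℝ) ^ (1 : ℝ) := Real.rpow_le_rpow_of_exponent_le hH1 hl1
        _ = H := Real.rpow_one _
    have h6 : (H : ℝ) ≤ H₀ := by exact_mod_cast hsm.le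
    have h7 : C * 1 ≤ C * (H : ℝ) ^ ((1 - m) * lam) := by gcongr
    have h8 : (H₀ : ℝ) ≤ C := by
      have := sq_nonneg c
      rw [hC]; linarith
    have h9 : ∏ l ∈ ({k₁} : Finset (Fin n))ᶜ, RR (x l) ≤
        RR (x k₁) * ∏ l ∈ ({k₁} : Finset (Fin n))ᶜ, RR (x l) :=
      le_mul_of_one_le_left h4.le h3
    linarith
  have hH0 : c ^ 3 < (H : ℝ) ^ (3 - 4 * ((D : ℝ) * (m * lam))) := by
    rw [← hδ]
    have h1 : (c ^ 3) ^ (1 / δ) < H := lt_of_lt_of_le hH₀ (by exact_mod_cast hlarge)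
    calc c ^ 3 = ((c ^ 3) ^ (1 / δ)) ^ δ := by
          rw [← Real.rpow_mul (by positivity), one_div_mul_cancel hδ0.ne', Real.rpow_one]
      _ < (H : ℝ) ^ δ := Real.rpow_lt_rpow (by positivity) h1 hδ0
  have hT : ∀ l, RR (x l) < (∏ l, RR (x l)) / (C * (H : ℝ) ^ ((1 - m) * lam)) := by
    intro l
    rw [lt_div_iff₀ hZ0]
    have h1 := hTc l
    have h2 := hsplit1 l
    have h3 := RR_pos (x l)
    calc RR (x l) * (C * (H : ℝ) ^ ((1 - m) * lam)) <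
          RR (x l) * ∏ l' ∈ ({l} : Finset (Fin n))ᶜ, RR (x l') := mul_lt_mul_of_pos_left h1 h3
      _ = ∏ l, RR (x l) := h2.symm
  have hμ : (∏ l, RR (x l)) / (C * (H : ℝ) ^ ((1 - m) * lam)) ≤ (H : ℝ) ^ (m * lam) := by
    rw [div_le_iff₀ hZ0]
    calc ∏ l, RR (x l) ≤ (H : ℝ) ^ lam := hprod
      _ = 1 * ((H : ℝ) ^ (m * lam) * (H : ℝ) ^ ((1 - m) * lam)) := by
          rw [← Real.rpow_add hHpos, one_mul]; congr 1; ring
      _ ≤ C * ((H : ℝ) ^ (m * lam) * (H : ℝ) ^ ((1 - m) * lam)) := by gcongr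
      _ = _ := by ring
  have hR : ∀ l, RR (x l) ≤ (H : ℝ) ^ (m * lam) := fun l => (hT l).le.trans hμ
  -- two more indices
  obtain ⟨i, j, hi, hj, hij⟩ : ∃ i j : Fin n, i ∈ ({k₁, k₂} : Finset (Fin n))ᶜ ∧
      j ∈ ({k₁, k₂} : Finset (Fin n))ᶜ ∧ i ≠ j := by
    have hcard : 1 < (({k₁, k₂} : Finset (Fin n))ᶜ).card := by
      rw [Finset.card_compl, Fintype.card_fin, Finset.card_pair hk12]
      omega
    obtain ⟨i, hi, j, hj, hij⟩ := Finset.one_lt_card.mp hcard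
    exact ⟨i, j, hi, hj, hij⟩
  simp only [Finset.mem_compl, Finset.mem_insert, Finset.mem_singleton, not_or] at hi hj
  obtain ⟨hi1, hi2⟩ := hi
  obtain ⟨hj1, hj2⟩ := hj
  have hTle : ∀ l, RR (x l) ≤ (∏ l, RR (x l)) / (C * (H : ℝ) ^ ((1 - m) * lam)) :=
    fun l => (hT l).le
  rcases entry_casesN hI hHpos.le hc1 (hx.1 k₁) hk1 with
    ⟨a, p, e, hp, he, ha0, hxe, hRxe, hpe⟩ | ⟨q₁, q₂, hq1, hq2, d1, d2, hRk, h1, h2, h12⟩
  swap
  · exact hNE (n_split (by omega) hH1 hx hij hi1 hj1 hc1 hC4' hprod hs hs0.le hts hts2 hTle hR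
      hq1 hq2 d1 d2 hRk h1 h2 h12)
  rcases entry_casesN hI hHpos.le hc1 (hx.1 k₂) hk2 with
    ⟨b, r, f, hr, hf, hb0, hyf, hRyf, hrf⟩ | ⟨q₁, q₂, hq1, hq2, d1, d2, hRk, h1, h2, h12⟩
  swap
  · exact hNE (n_split (by omega) hH1 hx hij hi2 hj2 hc1 hC4' hprod hs hs0.le hts hts2 hTle hR
      hq1 hq2 d1 d2 hRk h1 h2 h12)
  have hX := n_pp hH1 hx hij hi1 hj1 hc1 hml hR hp he hxe hRxe hpe hNE hZ0
  have hY := n_pp hH1 hx hij hi2 hj2 hc1 hml hR hr hf hyf hRyf hrf hNE hZ0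
  have habs : ∀ l, |(x l : ℝ)| ≤ H := by
    intro l
    have := hx.2.2.2 l
    exact_mod_cast this
  by_cases heK : K < e
  · exact n_high (by omega) hH1 hij hi1 hj1 hc1 hC2 hprod hs hT
      (base_smallN hH1 hK1' heK (pow_size (habs k₁) ha0 hxe) hKc) hRxe hX
  by_cases hfK : K < f
  · exact n_high (by omega) hH1 hij hi2 hj2 hc1 hC2 hprod hs hT
      (base_smallN hH1 hK1' hfK (pow_size (habs k₂) hb0 hyf) hKc) hRyf hY
  push Not at heK hfK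
  have heD := exp_largeN (D := D) hH1 hp (hR k₁) hRxe (one_le_RR a) hpe hc1 hH0
  have hfD := exp_largeN (D := D) hH1 hr (hR k₂) hRyf (one_le_RR b) hrf hc1 hH0
  have hp0 : (0 : ℝ) < p := by exact_mod_cast hp.pos
  have hr0 : (0 : ℝ) < r := by exact_mod_cast hr.pos
  have hJ : C * (H : ℝ) ^ ((1 - m) * lam) < RR a * RR b *
      (∏ l ∈ ({k₁, k₂} : Finset (Fin n))ᶜ, RR (x l)) * ((p : ℝ) * r) ^ κ := by
    by_contra hle
    push Not at hle
    exact hNJ ⟨hx, k₁, k₂, a, b, p, r, e, f, hk12, hp.one_lt.le, hr.one_lt.le, heD, heK, hfD,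
      hfK, hxe, hyf, by rw [filter2]; exact hle⟩
  have hW := aux6 (R := ∏ l, RR (x l)) hp0 hr0 hZ0 hJ
    (by rw [prod_two x hk12, hRxe, hRyf])
  have hi0 := RR_pos (x i)
  have hj0 := RR_pos (x j)
  have hS0 : 0 < Real.sqrt (RR (x i) * RR (x j)) := Real.sqrt_pos.mpr (mul_pos hi0 hj0)
  have hSS := Real.mul_self_sqrt (mul_pos hi0 hj0).le
  have hcard4 : ({i, j, k₁, k₂} : Finset (Fin n)).card = 4 := by
    rw [Finset.card_insert_of_notMem (by simp [hij, hi1, hi2]),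
      Finset.card_insert_of_notMem (by simp [hj1, hj2]), Finset.card_pair hk12]
  have hPle : ∏ t ∈ ({i, j, k₁, k₂} : Finset (Fin n))ᶜ, RR (x t) ≤
      ((∏ l, RR (x l)) / (C * (H : ℝ) ^ ((1 - m) * lam))) ^ (n - 4) := by
    have := prod_compl_le (fun l => RR (x l)) {i, j, k₁, k₂} _ (fun l => (RR_pos _).le) hTle
    rwa [hcard4] at this
  refine core3 (m := m) (κ := κ) (c := c) (C := C) (lam := lam) (H := (H : ℝ)) hn hH1 hR0 hprod hm
    (by linarith) hκ1 hrel hc1 rfl hC4 (X := RR a * Real.sqrt (RR (x i) * RR (x j)))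
    (Y := RR b * Real.sqrt (RR (x i) * RR (x j))) (W := (p : ℝ) * r)
    (P := ∏ t ∈ ({i, j, k₁, k₂} : Finset (Fin n))ᶜ, RR (x t)) (mul_pos (RR_pos b) hS0)
    (mul_pos hp0 hr0) (Finset.prod_pos fun l _ => RR_pos _)
    ((one_le_RR (x k₁)).trans (hTle k₁)) hX hY hW hPle ?_
  rw [prod_four x hij hi1 hi2 hj1 hj2 hk12, hRxe, hRyf]
  calc RR (x i) * RR (x j) * (RR a * p * (RR b * r)) *
        ∏ t ∈ ({i, j, k₁, k₂} : Finset (Fin n))ᶜ, RR (x t)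
      = RR a * RR b * (RR (x i) * RR (x j)) * (p * r) *
        ∏ t ∈ ({i, j, k₁, k₂} : Finset (Fin n))ᶜ, RR (x t) := by ring
    _ = RR a * RR b * (Real.sqrt (RR (x i) * RR (x j)) * Real.sqrt (RR (x i) * RR (x j))) *
        (p * r) * ∏ t ∈ ({i, j, k₁, k₂} : Finset (Fin n))ᶜ, RR (x t) := by rw [hSS]
    _ = _ := by ring

end Pool.Agent.H38.AE
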