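import Pool.Agent.H38.AE.TargetsN

/-! The theorem for `n ≥ 4` from the module targets. -/

set_option autoImplicit false

namespace Pool.Agent.H38.AE

theorem pf_N6 (hHA : T_HA) (hL : T_N5) : T_N6 := by
  intro n M ε hn hM hε
  have hM0 : 0 < M := by linarith
  have hn' : (4 : ℝ) ≤ n := by exact_mod_cast hn
  have hpos : 0 ≤ 3 * ((n : ℝ) - 1) * M / 4 := by
    have : 0 ≤ ((n : ℝ) - 1) * M := mul_nonneg (by linarith) hM0.le
    linarith
  obtain ⟨D, hD⟩ : ∃ D : ℕ, D = ⌊3 * ((n : ℝ) - 1) * M / 4⌋₊ := ⟨_, rfl⟩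
  have hD1 : 1 ≤ D := by
    rw [hD]
    apply Nat.le_floor
    push_cast
    have : (3 : ℝ) * 1 ≤ ((n : ℝ) - 1) * M := mul_le_mul (by linarith) hM (by norm_num)
      (by linarith)
    linarith
  have hDle : (D : ℝ) ≤ 3 * ((n : ℝ) - 1) * M / 4 := by rw [hD]; exact Nat.floor_le hpos
  rw [← hD]
  obtain ⟨d, hd⟩ : ∃ d : ℝ, d = (D : ℝ) := ⟨_, rfl⟩
  have hd1 : 1 ≤ d := by rw [hd]; exact_mod_cast hD1
  rw [← hd] at hDle ⊢
  obtain ⟨u, hu⟩ : ∃ u : ℝ, u = (n : ℝ) - 1 := ⟨_, rfl⟩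
  have hu3 : 3 ≤ u := by rw [hu]; linarith
  rw [← hu]
  obtain ⟨m, hm⟩ : ∃ m : ℝ, m = min ((3 * d + 5) / (u * (3 * d + 5) + 4)) ((8 + M) / (8 * n)) :=
    ⟨_, rfl⟩
  rw [← hm]
  have hden : 0 < u * (3 * d + 5) + 4 := by positivity
  have hm1 : m ≤ (3 * d + 5) / (u * (3 * d + 5) + 4) := by rw [hm]; exact min_le_left _ _
  have hm2 : m ≤ (8 + M) / (8 * n) := by rw [hm]; exact min_le_right _ _
  have hm0 : 0 < m := by
    rw [hm]
    exact lt_min (by positivity) (by positivity)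
  have hκ : (1 : ℝ) - 4 / (3 * (d + 3)) = (3 * d + 5) / (3 * (d + 3)) := by
    field_simp; ring
  have hκ1 : 4 / (3 * (d + 3)) < 1 := by
    rw [div_lt_one (by positivity)]; linarith
  have hrel : m * ((n : ℝ) - 2 + 1 / (1 - 4 / (3 * (d + 3)))) ≤ 1 := by
    have e : (n : ℝ) - 2 + 1 / (1 - 4 / (3 * (d + 3))) =
        (u * (3 * d + 5) + 4) / (3 * d + 5) := by
      rw [hκ, hu]
      field_simp
      ring
    rw [e]
    rw [le_div_iff₀ hden] at hm1
    rw [← mul_div_assoc, div_le_one (by positivity)]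
    exact hm1
  have hcond : (n : ℝ) * m * (1 / M) ≤ 1 / M + 1 / 8 := by
    rw [le_div_iff₀ (by positivity)] at hm2
    have e : (n : ℝ) * m * (1 / M) = (m * (8 * n)) / (8 * M) := by field_simp
    have e2 : 1 / M + 1 / 8 = (8 + M) / (8 * M) := by field_simp
    rw [e, e2]
    gcongr
  have hDm : (D : ℝ) * (m * (1 / M)) < 3 / 4 := by
    rw [← hd]
    have h1 : u * m < 1 := by
      have h2 : u * ((3 * d + 5) / (u * (3 * d + 5) + 4)) < 1 := by
        rw [← mul_div_assoc, div_lt_one hden]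
        linarith
      have h3 : u * m ≤ u * ((3 * d + 5) / (u * (3 * d + 5) + 4)) := by gcongr
      linarith
    have h4 : d * m ≤ 3 * u * M / 4 * m := by
      rw [hu]; gcongr
    have h5 : 3 * u * M / 4 * m < 3 / 4 * M := by
      have : 3 * u * M / 4 * m = 3 / 4 * M * (u * m) := by ring
      rw [this]
      have h6 : 0 < 3 / 4 * M := by positivity
      calc 3 / 4 * M * (u * m) < 3 / 4 * M * 1 := mul_lt_mul_of_pos_left h1 h6
        _ = 3 / 4 * M := by ring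
    have e : d * (m * (1 / M)) = d * m / M := by ring
    rw [e, div_lt_iff₀ hM0]
    linarith
  have hHD := hHA D hD1
  rw [← hd] at hHD
  exact hL n D M m (4 / (3 * (d + 3))) hn hM (by positivity) hκ1 hm0 hrel hcond hDm hHD ε hε

end Pool.Agent.H38.AE
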