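import Mathlib

/-! Targets of the modules for the exceptional set of the abc conjecture. -/

set_option autoImplicit false

namespace Pool.Agent.H38.AE

/-- The radical: product of the distinct primes dividing `n`. -/
def rad (n : ℕ) : ℕ := ∏ p ∈ n.primeFactors, p

/-- The size `R + R ^ 2 / sqrt q`. -/
noncomputable def wt (q : ℕ) (R : ℝ) : ℝ := R + R ^ 2 / Real.sqrt q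

/-- Radical of an integer, as a real number. -/
noncomputable def RR (x : ℤ) : ℝ := (rad x.natAbs : ℝ)

/-- Admissible triples of height at most `H`. -/
def Tri (H : ℕ) : Set (ℤ × ℤ × ℤ) :=
  {t | t.1 ≠ 0 ∧ t.2.1 ≠ 0 ∧ t.2.2 ≠ 0 ∧ IsCoprime t.1 t.2.1 ∧ IsCoprime t.1 t.2.2 ∧
    IsCoprime t.2.1 t.2.2 ∧ t.1 + t.2.1 + t.2.2 = 0 ∧ |t.1| ≤ H ∧ |t.2.1| ≤ H ∧ |t.2.2| ≤ H}

/-- Triples whose first two radicals have small product. -/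
def ST (H : ℕ) (Z : ℝ) : Set (ℤ × ℤ × ℤ) :=
  {t | t ∈ Tri H ∧ RR t.1 * RR t.2.1 ≤ Z}

/-- Triples with a good divisor `q` of the third entry. -/
def SE (H : ℕ) (Z : ℝ) : Set (ℤ × ℤ × ℤ) :=
  {t | t ∈ Tri H ∧ ∃ q : ℕ, 1 ≤ q ∧ (q : ℤ) ∣ t.2.2 ∧
    (rad q : ℝ) * Real.sqrt (wt q (RR t.1) * wt q (RR t.2.1)) ≤ Z}

/-- Triples whose first two entries are nearly powers of `p` and `r`. -/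
def SJ (H : ℕ) (Z κ : ℝ) (D K : ℕ) : Set (ℤ × ℤ × ℤ) :=
  {t | t ∈ Tri H ∧ ∃ (a b : ℤ) (p r e f : ℕ), 1 ≤ p ∧ 1 ≤ r ∧ D < e ∧ e ≤ K ∧ D < f ∧ f ≤ K ∧
    t.1 = a * (p : ℤ) ^ e ∧ t.2.1 = b * (r : ℤ) ^ f ∧
    RR a * RR b * RR t.2.2 * ((p : ℝ) * r) ^ κ ≤ Z}

/-- A: sum of the reciprocals of the radicals. -/
def T_A : Prop := ∀ ε : ℝ, 0 < ε → ∃ C : ℝ, 0 < C ∧ ∀ N : ℕ, 1 ≤ N →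
  ∑ n ∈ Finset.Icc 1 N, (1 : ℝ) / (rad n : ℝ) ≤ C * (N : ℝ) ^ ε

/-- B: number of factorisations into `k` factors. -/
def T_B : Prop := ∀ (k : ℕ) (ε : ℝ), 0 < ε → ∃ C : ℝ, 0 < C ∧ ∀ m : ℕ, 1 ≤ m →
  ((((Fintype.piFinset (fun _ : Fin k => m.divisors)).filter
    (fun u => ∏ i, u i = m)).card : ℕ) : ℝ) ≤ C * (m : ℝ) ^ ε

/-- C: number of `j`-th roots of unity modulo `q`. -/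
def T_C : Prop := ∀ (j : ℕ) (ε : ℝ), 1 ≤ j → 0 < ε → ∃ C : ℝ, 0 < C ∧ ∀ (q : ℕ) [NeZero q],
  (((Finset.univ : Finset (ZMod q)ˣ).filter (fun u => u ^ j = 1)).card : ℝ) ≤ C * (q : ℝ) ^ ε

/-- O: orthogonality of the Dirichlet characters. -/
def T_O : Prop := ∀ (q : ℕ) [NeZero q] (ι : Type) (I : Finset ι) (f : ι → ZMod q),
  ∑ χ : DirichletCharacter ℂ q, ‖∑ i ∈ I, χ (f i)‖ ^ 2 =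
    (q.totient : ℝ) *
      (((I ×ˢ I).filter (fun t => f t.1 = f t.2 ∧ IsUnit (f t.1))).card : ℝ)

/-- DM: moments of the power sums of characters over a dyadic interval. -/
def T_DM : Prop := ∀ (j n : ℕ) (ε : ℝ), 1 ≤ j → 1 ≤ n → 0 < ε → ∃ C : ℝ, 0 < C ∧
  ∀ (q : ℕ) [NeZero q] (Y : ℕ), 1 ≤ Y →
    ∑ χ : DirichletCharacter ℂ q, ‖∑ y ∈ Finset.Ico Y (2 * Y), χ ((y : ZMod q) ^ j)‖ ^ (2 * n) ≤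
      (q.totient : ℝ) * (C * ((q : ℝ) * Y) ^ ε * ((Y : ℝ) ^ n + (Y : ℝ) ^ (2 * n) / q))

/-- HO: Hölder's inequality for averages. -/
def T_HO : Prop := ∀ (ι κ : Type) (S : Finset κ) (J : Finset ι) (f : ι → κ → ℝ) (n : ι → ℕ),
  S.Nonempty → (∀ i ∈ J, ∀ s ∈ S, 0 ≤ f i s) → (∀ i ∈ J, 1 ≤ n i) →
  ∑ i ∈ J, (1 : ℝ) / n i ≤ 1 →
  (∑ s ∈ S, ∏ i ∈ J, f i s ^ 2) / S.card ≤
    ∏ i ∈ J, ((∑ s ∈ S, f i s ^ (2 * n i)) / S.card) ^ ((1 : ℝ) / n i)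

/-- F: energy of a box of exponent parts. -/
def T_F : Prop := ∀ (K : ℕ) (ε : ℝ), 0 < ε → ∃ C : ℝ, 0 < C ∧ ∀ (N q : ℕ) [NeZero q], q ≤ N →
  ∀ Y : Fin K → ℕ, (∀ j, 1 ≤ Y j) → ∏ j, Y j ≤ N →
  ((((Fintype.piFinset (fun j => Finset.Ico (Y j) (2 * Y j))) ×ˢ
      (Fintype.piFinset (fun j => Finset.Ico (Y j) (2 * Y j)))).filter
    (fun t => (∏ j, ((t.1 j : ℕ) : ZMod q) ^ (j.val + 1)) =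
        ∏ j, ((t.2 j : ℕ) : ZMod q) ^ (j.val + 1) ∧
      IsUnit (∏ j, ((t.1 j : ℕ) : ZMod q) ^ (j.val + 1)))).card : ℝ) ≤
    C * (N : ℝ) ^ ε * wt q (((∏ j, Y j : ℕ) : ℝ))

/-- S: decomposition of an integer by the exponents of its prime factors. -/
def T_S : Prop := ∀ (K x : ℕ), 1 ≤ x → ∃ (z : ℕ) (y : Fin K → ℕ), 1 ≤ z ∧ (∀ j, 1 ≤ y j) ∧
  x = z * ∏ j, y j ^ (j.val + 1) ∧ ∏ j, y j ≤ rad x ∧ (rad z) ^ (K + 1) ≤ x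

/-- G: weighted energy of the integers up to `N` modulo `q`. -/
def T_G : Prop := ∀ ε : ℝ, 0 < ε → ∃ C : ℝ, 0 < C ∧ ∀ (N q : ℕ) [NeZero q], 1 ≤ N → q ≤ N →
  ∀ u : (ZMod q)ˣ,
  ∑ t ∈ ((Finset.Icc 1 N) ×ˢ (Finset.Icc 1 N)).filter
      (fun t => ((t.1 : ℕ) : ZMod q) = u * ((t.2 : ℕ) : ZMod q) ∧ IsUnit ((t.1 : ℕ) : ZMod q)),
    1 / Real.sqrt (wt q (rad t.1) * wt q (rad t.2)) ≤ C * (N : ℝ) ^ ε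

/-- H: points on `a x ^ e + b y ^ f = E`, three-point determinant. -/
def T_H : Prop := ∀ (e f : ℕ) (ε : ℝ), 2 ≤ e → 2 ≤ f → 0 < ε → ∃ C : ℝ, 0 < C ∧
  ∀ (N : ℕ) (a b E : ℤ), 1 ≤ N → a ≠ 0 → b ≠ 0 → E ≠ 0 → |a| ≤ N → |b| ≤ N → |E| ≤ N →
  ∀ U V : ℕ, 1 ≤ U → 1 ≤ V → U ≤ N → V ≤ N →
  (((Finset.Icc 1 U ×ˢ Finset.Icc 1 V).filter
    (fun t => a * (t.1 : ℤ) ^ e + b * (t.2 : ℤ) ^ f = E)).card : ℝ) ≤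
    C * (N : ℝ) ^ ε * ((U : ℝ) * V) ^ ((1 : ℝ) / 3)

/-- HD: the same with polynomials of degree at most `D` instead of lines. -/
def T_HD (D : ℕ) (κ : ℝ) : Prop := ∀ (e f : ℕ) (ε : ℝ), D < e → D < f → 0 < ε → ∃ C : ℝ, 0 < C ∧
  ∀ (N : ℕ) (a b E : ℤ), 1 ≤ N → a ≠ 0 → b ≠ 0 → E ≠ 0 → |a| ≤ N → |b| ≤ N → |E| ≤ N →
  ∀ U V : ℕ, 1 ≤ U → 1 ≤ V → U ≤ N → V ≤ N →
  (((Finset.Icc 1 U ×ˢ Finset.Icc 1 V).filter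
    (fun t => a * (t.1 : ℤ) ^ e + b * (t.2 : ℤ) ^ f = E)).card : ℝ) ≤
    C * (N : ℝ) ^ ε * ((U : ℝ) * V) ^ κ

/-- I: splitting an integer. -/
def T_I : Prop := ∀ x : ℕ, 1 ≤ x →
  (∃ p : ℕ, p.Prime ∧ p ∣ x ∧ x ^ 3 ≤ (p ^ (x.factorization p)) ^ 4) ∨
  (∃ q₁ q₂ : ℕ, q₁ * q₂ = x ∧ Nat.Coprime q₁ q₂ ∧ x ≤ q₁ ^ 4 ∧ x ≤ q₂ ^ 4)

/-- J1. -/
def T_J1 : Prop := ∀ ε : ℝ, 0 < ε → ∃ C : ℝ, 0 < C ∧ ∀ (H : ℕ) (Z : ℝ), 1 ≤ H → 0 ≤ Z →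
  ((ST H Z).ncard : ℝ) ≤ C * (H : ℝ) ^ ε * Z

/-- J2. -/
def T_J2 : Prop := ∀ ε : ℝ, 0 < ε → ∃ C : ℝ, 0 < C ∧ ∀ (H : ℕ) (Z : ℝ), 1 ≤ H → 0 ≤ Z →
  ((SE H Z).ncard : ℝ) ≤ C * (H : ℝ) ^ ε * Z

/-- J3. -/
def T_J3 : Prop := ∀ (D K : ℕ) (κ ε : ℝ), 0 ≤ κ → 0 < ε → T_HD D κ →
  ∃ C : ℝ, 0 < C ∧ ∀ (H : ℕ) (Z : ℝ), 1 ≤ H → 0 ≤ Z →
  ((SJ H Z κ D K).ncard : ℝ) ≤ C * (H : ℝ) ^ ε * Z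

/-- The union of the three families. -/
def SU (H : ℕ) (Z κ : ℝ) (D K : ℕ) : Set (ℤ × ℤ × ℤ) := ST H Z ∪ SE H Z ∪ SJ H Z κ D K

/-- K: covering of the exceptional triples. -/
def T_K : Prop := ∀ (D : ℕ) (lam θ κ : ℝ), 0 < lam → lam ≤ 1 → 4 / 7 < θ → θ ≤ 5 / 8 → 0 ≤ κ →
  4 - 2 * κ = θ * (7 - 5 * κ) → (2 - 3 * θ) * lam ≤ 1 / 8 → (D : ℝ) * ((1 - θ) * lam) < 3 / 4 →
  ∃ (C : ℝ) (K : ℕ), 0 < C ∧ ∀ (H : ℕ) (t : ℤ × ℤ × ℤ), 1 ≤ H → t ∈ Tri H →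
    ((H : ℤ) < 2 * |t.1| ∨ (H : ℤ) < 2 * |t.2.1| ∨ (H : ℤ) < 2 * |t.2.2|) →
    RR t.1 * RR t.2.1 * RR t.2.2 ≤ (H : ℝ) ^ lam →
    ∃ x y z : ℤ, (x, y, z) ∈ SU H (C * (H : ℝ) ^ (θ * lam)) κ D K ∧
      (t = (x, y, z) ∨ t = (x, z, y) ∨ t = (y, x, z) ∨ t = (y, z, x) ∨ t = (z, x, y) ∨
        t = (z, y, x))

/-- The exceptional triples of height at most `N` for the exponent `M`. -/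
def Exc (M : ℝ) (N : ℕ) : Set (ℤ × ℤ × ℤ) :=
  {t | t ∈ Tri N ∧ ((rad (t.1 * t.2.1 * t.2.2).natAbs : ℝ) ^ M < |(t.1 : ℝ)| ∨
    (rad (t.1 * t.2.1 * t.2.2).natAbs : ℝ) ^ M < |(t.2.1 : ℝ)| ∨
    (rad (t.1 * t.2.1 * t.2.2).natAbs : ℝ) ^ M < |(t.2.2 : ℝ)|)}

/-- L: the count, for given parameters. -/
def T_L : Prop := ∀ (D : ℕ) (M θ κ : ℝ), 1 ≤ M → 4 / 7 < θ → θ ≤ 5 / 8 → 0 ≤ κ →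
  4 - 2 * κ = θ * (7 - 5 * κ) → (2 - 3 * θ) * (1 / M) ≤ 1 / 8 →
  (D : ℝ) * ((1 - θ) * (1 / M)) < 3 / 4 → T_HD D κ →
  ∀ ε : ℝ, 0 < ε → ∃ C : ℝ, 0 < C ∧ ∀ N : ℕ, 1 ≤ N →
    ((Exc M N).ncard : ℝ) ≤ C * (N : ℝ) ^ (θ / M + ε)

/-- HP: determinants of monomials at points of the curve that are congruent modulo `ℓ`. -/
def T_HP : Prop := ∀ (ℓ : ℕ) (a b E : ℤ) (e f s : ℕ), ℓ.Prime → 2 ≤ e → 2 ≤ f →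
  ¬ (ℓ : ℤ) ∣ a → ¬ (ℓ : ℤ) ∣ b → ¬ (ℓ : ℤ) ∣ E → ¬ ℓ ∣ e → ¬ ℓ ∣ f →
  ∀ (x y : Fin s → ℤ) (k l : Fin s → ℕ),
  (∀ i, a * x i ^ e + b * y i ^ f = E) →
  (∀ i j, (ℓ : ℤ) ∣ x i - x j) → (∀ i j, (ℓ : ℤ) ∣ y i - y j) →
  (ℓ : ℤ) ^ (s * (s - 1) / 2) ∣ Matrix.det (fun i j : Fin s => x i ^ k j * y i ^ l j)

/-- The exponents `(k, l)` with `k + l ≤ D`. -/
def mon (D : ℕ) : Finset (ℕ × ℕ) := (Finset.range (D + 1) ×ˢ Finset.range (D + 1)).filter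
  (fun t => t.1 + t.2 ≤ D)

/-- HR: points of a class lie on a curve of degree at most `D`. -/
def T_HR : Prop := ∀ (D ℓ : ℕ) (a b E : ℤ) (e f U V : ℕ), ℓ.Prime → 2 ≤ e → 2 ≤ f →
  ¬ (ℓ : ℤ) ∣ a → ¬ (ℓ : ℤ) ∣ b → ¬ (ℓ : ℤ) ∣ E → ¬ ℓ ∣ e → ¬ ℓ ∣ f →
  (Nat.factorial ((D + 1) * (D + 2) / 2)) * (U * V) ^ (D * (D + 1) * (D + 2) / 6) <
    ℓ ^ ((D + 1) * (D + 2) / 2 * ((D + 1) * (D + 2) / 2 - 1) / 2) →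
  ∀ P : Finset (ℤ × ℤ), (∀ t ∈ P, 1 ≤ t.1 ∧ t.1 ≤ U ∧ 1 ≤ t.2 ∧ t.2 ≤ V ∧
    a * t.1 ^ e + b * t.2 ^ f = E) →
  (∀ t ∈ P, ∀ t' ∈ P, (ℓ : ℤ) ∣ t.1 - t'.1 ∧ (ℓ : ℤ) ∣ t.2 - t'.2) →
  ∃ h : ℕ × ℕ → ℚ, (∃ m ∈ mon D, h m ≠ 0) ∧
    ∀ t ∈ P, ∑ m ∈ mon D, h m * (t.1 : ℚ) ^ m.1 * (t.2 : ℚ) ^ m.2 = 0

/-- HB: intersection of the curve with a curve of degree at most `D`. -/
def T_HB : Prop := ∀ (D e f : ℕ), D < e → D < f → ∃ B : ℕ, ∀ (a b E : ℤ), a ≠ 0 → b ≠ 0 →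
  E ≠ 0 → ∀ h : ℕ × ℕ → ℚ, (∃ m ∈ mon D, h m ≠ 0) →
  ∀ P : Finset (ℤ × ℤ), (∀ t ∈ P, 1 ≤ t.1 ∧ 1 ≤ t.2 ∧ a * t.1 ^ e + b * t.2 ^ f = E ∧
    ∑ m ∈ mon D, h m * (t.1 : ℚ) ^ m.1 * (t.2 : ℚ) ^ m.2 = 0) →
  P.card ≤ B

/-- HC: a prime not dividing given numbers. -/
def T_HC : Prop := ∀ (c : ℕ) (ε : ℝ), 0 < ε → ∃ C : ℝ, 1 ≤ C ∧ ∀ (N T : ℕ) (L : ℝ), 1 ≤ N →
  1 ≤ T → T ≤ N ^ c → 2 ≤ L → (N : ℝ) ^ ε ≤ L →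
  ∃ ℓ : ℕ, ℓ.Prime ∧ ¬ ℓ ∣ T ∧ L < ℓ ∧ (ℓ : ℝ) ≤ C * L

/-- HA: the general curve bound. -/
def T_HA : Prop := ∀ D : ℕ, 1 ≤ D → T_HD D (4 / (3 * ((D : ℝ) + 3)))

/-- Main theorem. -/
def T_MF : Prop := ∀ (M ε : ℝ), 1 ≤ M → 0 < ε → ∃ C : ℝ, 0 < C ∧ ∀ N : ℕ, 1 ≤ N →
  ((Exc M N).ncard : ℝ) ≤
    C * (N : ℝ) ^ ((12 * (⌊3 * M / 2⌋₊ : ℝ) + 28) / ((21 * (⌊3 * M / 2⌋₊ : ℝ) + 43) * M) + ε)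

end Pool.Agent.H38.AE
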